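import Pool.Agent.W619.PQ.Log

/-! Definitions: pluricanonical forms, Kodaira dimension `-∞`, uniruledness, for function fields. -/

set_option autoImplicit false
set_option linter.overlappingInstances false
set_option linter.unusedSectionVars false

universe u v

open FF

namespace Pool.Agent.W619.PQ

section

variable (k : Type u) (K : Type v) [Field k] [Field K] [Algebra k K]

/-- `ω` is a rational section of the `m`-th power of the canonical bundle of the variety of
dimension `n` with function field `K`: a function of `n` rational vector fields which is
multiplied by `det(A)^m` under a linear substitution `A`. -/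
def IsPluriForm (n m : ℕ) (ω : (Fin n → Derivation k K K) → K) : Prop :=
  ∀ (A : Matrix (Fin n) (Fin n) K) (D : Fin n → Derivation k K K),
    ω (fun i => ∑ j, A i j • D j) = A.det ^ m * ω D

variable {k K}

/-- The residue field of the place has transcendence degree at least `n - 1`: for `n` the dimension,
the place is a prime divisor on some normal model of `K`. -/
def IsDivisorial (v : Place k K) (n : ℕ) : Prop :=
  ∃ y : Fin (n - 1) → K, ∀ p : MvPolynomial (Fin (n - 1)) k, p ≠ 0 →
    MvPolynomial.aeval y p ≠ 0 ∧ v.ord (MvPolynomial.aeval y p) = 0

/-- `ω` is regular along the divisor `v`: it takes vector fields which are regular along `v`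
to functions regular along `v`. -/
def RegularAt (v : Place k K) (n : ℕ) (ω : (Fin n → Derivation k K K) → K) : Prop :=
  ∀ D : Fin n → Derivation k K K, (∀ j, ∀ f, v.Reg f → v.Reg (D j f)) → v.Reg (ω D)

variable (k K)

/-- Kodaira dimension `-∞`: there is no nonzero regular pluricanonical form. -/
def KodairaNeg (n : ℕ) : Prop :=
  ∀ m : ℕ, 1 ≤ m → ∀ ω : (Fin n → Derivation k K K) → K, IsPluriForm k K n m ω →
    (∀ v : Place k K, IsDivisorial v n → RegularAt v n ω) → ∀ D, ω D = 0

/-- Uniruledness: `K` embeds over `k` in the field of rational functions `M(t)`, where `M` is the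
function field of a variety of dimension `n - 1`. -/
def IsUniruled (n : ℕ) : Prop :=
  ∃ (M : Type v) (_ : Field M) (_ : Algebra k M), Algebra.EssFiniteType k M ∧
    Algebra.trdeg k M + 1 = n ∧ Nonempty (K →ₐ[k] RatFunc M)

end

end Pool.Agent.W619.PQ
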