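import Mathlib

/-! Derivations dual to a transcendence basis. -/

set_option autoImplicit false

open MvPolynomial

namespace Pool.Agent.W619.PQ

variable {k K : Type*} [Field k] [Field K] [Algebra k K] [CharZero k]

theorem exists_dual {ι : Type*} (x : ι → K) (hx : IsTranscendenceBasis k x) (j : ι)
    [DecidableEq ι] :
    ∃ D : Derivation k K K, ∀ i, D (x i) = if i = j then 1 else 0 := by
  have hinj : Function.Injective (aeval x : MvPolynomial ι k →ₐ[k] K) := hx.1
  let _ : Algebra (MvPolynomial ι k) K := ((aeval x : MvPolynomial ι k →ₐ[k] K) :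
    MvPolynomial ι k →+* K).toAlgebra
  have hst : IsScalarTower k (MvPolynomial ι k) K := IsScalarTower.of_algebraMap_eq' (by
    ext c
    simp [RingHom.algebraMap_toAlgebra])
  have hfs : FaithfulSMul (MvPolynomial ι k) K := (faithfulSMul_iff_algebraMap_injective _ _).2 hinj
  have halg : Algebra.IsAlgebraic (MvPolynomial ι k) K := by
    have h1 := hx.isAlgebraic
    constructor
    intro f
    have h2 := h1.isAlgebraic f
    -- transfer along `MvPolynomial ≃ adjoin`
    obtain ⟨p, hp0, hp⟩ := h2
    have hsurj : ∀ a : Algebra.adjoin k (Set.range x), ∃ q : MvPolynomial ι k, aeval x q = (a : K) := by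
      rintro ⟨a, ha⟩
      rw [Algebra.adjoin_range_eq_range_aeval] at ha
      exact ha
    choose q hq using hsurj
    have hq0 : ∀ a, q a = 0 ↔ a = 0 := by
      intro a
      constructor
      · intro h
        have := hq a
        rw [h, map_zero] at this
        exact Subtype.ext this.symm
      · rintro rfl
        apply hinj
        rw [hq 0, map_zero]; rfl
    refine ⟨∑ i ∈ p.support, Polynomial.monomial i (q (p.coeff i)), ?_, ?_⟩
    · obtain ⟨i, hi⟩ := (Polynomial.support_nonempty.2 hp0)
      intro h0
      have h1 := congrArg (fun r => Polynomial.coeff r i) h0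
      simp only [Polynomial.finsetSum_coeff, Polynomial.coeff_monomial, Polynomial.coeff_zero,
        Finset.sum_ite_eq', hi, if_true] at h1
      rw [hq0] at h1
      exact (Polynomial.mem_support_iff.1 hi) h1
    · rw [map_sum]
      have h2 : Polynomial.aeval f p = ∑ i ∈ p.support, (p.coeff i : K) * f ^ i := by
        rw [Polynomial.aeval_def, Polynomial.eval₂_eq_sum, Polynomial.sum]
        rfl
      rw [← hp, h2]
      refine Finset.sum_congr rfl fun i _ => ?_
      rw [Polynomial.aeval_monomial]
      congr 1
      exact hq _
  let _ : Algebra (FractionRing (MvPolynomial ι k)) K := FractionRing.liftAlgebra (MvPolynomial ι k) K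
  have hst2 : IsScalarTower (MvPolynomial ι k) (FractionRing (MvPolynomial ι k)) K := inferInstance
  have halg2 : Algebra.IsAlgebraic (FractionRing (MvPolynomial ι k)) K :=
    (IsFractionRing.comap_isAlgebraic_iff (A := MvPolynomial ι k)
      (K := FractionRing (MvPolynomial ι k)) (C := K)).1 halg
  have hchar : CharZero (FractionRing (MvPolynomial ι k)) := inferInstance
  have hsep : Algebra.IsSeparable (FractionRing (MvPolynomial ι k)) K := inferInstance
  have h1 : Algebra.FormallyEtale (FractionRing (MvPolynomial ι k)) K :=
    Algebra.FormallyEtale.of_isSeparable _ _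
  have h2 : Algebra.FormallyEtale (MvPolynomial ι k) (FractionRing (MvPolynomial ι k)) :=
    Algebra.FormallyEtale.of_isLocalization (nonZeroDivisors (MvPolynomial ι k))
  have h3 : Algebra.FormallyEtale (MvPolynomial ι k) K :=
    Algebra.FormallyEtale.comp (MvPolynomial ι k) (FractionRing (MvPolynomial ι k)) K
  let e := KaehlerDifferential.tensorKaehlerEquivOfFormallyEtale k (MvPolynomial ι k) K
  let d : Derivation k (MvPolynomial ι k) K :=
    (Algebra.linearMap (MvPolynomial ι k) K).compDer (pderiv j)
  let L : Ω[K⁄k] →ₗ[K] K :=
    (LinearMap.liftBaseChange K d.liftKaehlerDifferential).comp e.symm.toLinearMap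
  refine ⟨L.compDer (KaehlerDifferential.D k K), fun i => ?_⟩
  have h5 : x i = algebraMap (MvPolynomial ι k) K (X i) := by
    simp [RingHom.algebraMap_toAlgebra]
  change L (KaehlerDifferential.D k K (x i)) = _
  change LinearMap.liftBaseChange K d.liftKaehlerDifferential
    (e.symm (KaehlerDifferential.D k K (x i))) = _
  rw [h5, KaehlerDifferential.tensorKaehlerEquivOfFormallyEtale_symm_D_algebraMap]
  simp only [LinearMap.liftBaseChange_tmul, one_smul, Derivation.liftKaehlerDifferential_comp_D]
  change algebraMap (MvPolynomial ι k) K (pderiv j (X i)) = _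
  rw [pderiv_X]
  by_cases h : i = j
  · subst h; simp
  · rw [if_neg h, Pi.single_eq_of_ne h]; simp

end Pool.Agent.W619.PQ
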