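import Pool.Agent.W619.PQ.Rat
import Pool.Agent.Helper386.D5V.Helper399_FF4

/-! Pluricanonical forms on the quotient of a curve by a finite group. -/

set_option autoImplicit false
set_option linter.overlappingInstances false
set_option linter.unusedSectionVars false

open Polynomial FF IntermediateField

namespace Pool.Agent.W619.PQ

open Pool.Agent.W603.LV

section

variable {k : Type*} [Field k] [CharZero k] [IsAlgClosed k]
  {E0 E : Type*} [Field E0] [Field E] [Algebra k E0] [Algebra k E] [Algebra E0 E]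
  [IsScalarTower k E0 E] [IsFF k E0] [IsFF k E] [FiniteDimensional E0 E]

theorem exists_place_over (q : Place k E0) : ∃ (e : ℕ) (w : Place k E), Over w q e := by
  obtain ⟨S, T, -, hT, hsum⟩ := exists_places_over (K' := E) q
  have hpos : 0 < Module.finrank E0 E := Module.finrank_pos
  obtain ⟨w, hw⟩ : S.Nonempty := by
    rw [Finset.nonempty_iff_ne_empty]
    rintro rfl
    rw [Finset.sum_empty] at hsum
    omega
  obtain ⟨e, h, -⟩ := hT w hw
  exact ⟨e, w, h⟩

theorem canDeg_rational {x : E0} (hx : k⟮x⟯ = ⊤) : canDeg k E0 = -2 := by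
  classical
  have ht := transcendental_of_top hx
  obtain ⟨D, hD, hDx⟩ := exists_ddx ht
  obtain ⟨P, hP, hP2⟩ := pole_unique hx
  have h1 := canDeg_finset (k := k) hD {P} (by
    intro Q hQ
    rw [Finset.mem_singleton]
    by_contra hne
    apply hQ
    refine (vo_finite_place hx hD hDx Q ?_).1
    by_contra hcon
    exact hne (hP2 Q (by omega)))
  rw [Finset.sum_singleton, vo_infinite_place hD hDx P hP] at h1
  omega

/-- The form on the quotient curve. -/
theorem curve_data {H : Type*} [Group H] [Finite H] (ρ : H →* (E ≃ₐ[k] E))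
    (hfix : ∀ (h : H) (z : E0), ρ h (algebraMap E0 E z) = algebraMap E0 E z)
    (hinv : ∀ z : E, (∀ h, ρ h z = z) → ∃ z0, algebraMap E0 E z0 = z)
    (hrat : ¬ ∃ t : E, k⟮t⟯ = ⊤) (N : ℕ)
    (hN : 6 ≤ N ∨ (1 ≤ N ∧ ¬ ∃ t : E0, k⟮t⟯ = ⊤) ∨
      ∃ (S : Finset (Place k E0)) (ν : Place k E0 → ℕ),
        (∀ q ∈ S, 1 ≤ ν q ∧ ν q ≤ N ∧ ∀ (w : Place k E) (e : ℕ), Over w q e → ν q ≤ e) ∧
        (2 : ℚ) ≤ ∑ q ∈ S, (1 - 1 / (ν q : ℚ))) :
    ∃ (m : ℕ) (D0 : Derivation k E0 E0) (c : E0), 1 ≤ m ∧ D0 ≠ 0 ∧ c ≠ 0 ∧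
      ∀ q : Place k E0, ∃ ν : ℕ, 1 ≤ ν ∧ ν ≤ N ∧
        (∀ (w : Place k E) (e : ℕ), Over w q e → ν ≤ e) ∧
        (m : ℤ) ≤ ν * (q.ord c + m * (1 - vo q D0)) := by
  classical
  have hN1 : 1 ≤ N := by
    rcases hN with h | ⟨h, -⟩ | ⟨S, ν, h1, h2⟩
    · omega
    · exact h
    · obtain ⟨q, hq⟩ : S.Nonempty := by
        rw [Finset.nonempty_iff_ne_empty]
        rintro rfl
        rw [Finset.sum_empty] at h2
        norm_num at h2
      have := h1 q hq
      omega
  by_cases hrat0 : ∃ t : E0, k⟮t⟯ = ⊤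
  swap
  · obtain ⟨f, hf0, hf⟩ := exists_regular hrat0 (der_ne (k := k) (K := E0))
    refine ⟨1, der k E0, f, le_rfl, der_ne, hf0, fun q => ⟨1, le_rfl, hN1, fun w e h => h.1, ?_⟩⟩
    have := hf q
    push_cast
    linarith
  obtain ⟨x, hx⟩ := hrat0
  have key : ∀ (S : Finset (Place k E0)) (ν : Place k E0 → ℕ),
        (∀ q ∈ S, 1 ≤ ν q ∧ ν q ≤ N ∧ ∀ (w : Place k E) (e : ℕ), Over w q e → ν q ≤ e) →
        (2 : ℚ) ≤ ∑ q ∈ S, (1 - 1 / (ν q : ℚ)) →
      ∃ (m : ℕ) (D0 : Derivation k E0 E0) (c : E0), 1 ≤ m ∧ D0 ≠ 0 ∧ c ≠ 0 ∧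
      ∀ q : Place k E0, ∃ ν : ℕ, 1 ≤ ν ∧ ν ≤ N ∧
        (∀ (w : Place k E) (e : ℕ), Over w q e → ν ≤ e) ∧
        (m : ℤ) ≤ ν * (q.ord c + m * (1 - vo q D0)) := by
    intro S ν h1 h2
    obtain ⟨m, D, c, hm, hD, hc, h⟩ := exists_form hx S ν (fun q hq => (h1 q hq).1) h2
    refine ⟨m, D, c, hm, hD, hc, fun q => ?_⟩
    rcases h q with ⟨hq, h3⟩ | h3
    · exact ⟨ν q, (h1 q hq).1, (h1 q hq).2.1, (h1 q hq).2.2, h3⟩
    · exact ⟨1, le_rfl, hN1, fun w e h => h.1, by push_cast; linarith⟩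
  rcases hN with hN6 | ⟨-, h⟩ | ⟨S, ν, h1, h2⟩
  · obtain ⟨c, hc0, hc⟩ := exists_norm ρ hfix hinv hrat (der_ne (k := k) (K := E0))
    set M := Nat.card H with hM
    have hMpos : 0 < M := Nat.card_pos
    -- the minimal ramification index
    have hex : ∀ q : Place k E0, ∃ e, ∃ w : Place k E, Over w q e := fun q => exists_place_over q
    let r : Place k E0 → ℕ := fun q => Nat.find (hex q)
    have hr1 : ∀ q, ∃ w : Place k E, Over w q (r q) := fun q => Nat.find_spec (hex q)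
    have hr2 : ∀ (q : Place k E0) (w : Place k E) (e : ℕ), Over w q e → r q ≤ e :=
      fun q w e h => Nat.find_min' (hex q) ⟨w, h⟩
    have hrpos : ∀ q, 1 ≤ r q := fun q => by
      obtain ⟨w, hw⟩ := hr1 q
      exact hw.1
    have hineq : ∀ q, (M : ℚ) * (vo q (der k E0)) - M * (1 - 1 / (r q : ℚ)) ≤ q.ord c := by
      intro q
      obtain ⟨w, hw⟩ := hr1 q
      have h1 := hc q w (r q) hw
      have h2 : (M : ℚ) ≤ r q * (q.ord c + M * (1 - vo q (der k E0))) := by exact_mod_cast h1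
      have h3 : (0 : ℚ) < r q := by exact_mod_cast hrpos q
      have h4 : (M : ℚ) / r q ≤ q.ord c + M * (1 - vo q (der k E0)) := by
        rw [div_le_iff₀ h3]; linarith
      have h5 : (M : ℚ) * (1 - 1 / (r q : ℚ)) = M - M / r q := by field_simp
      rw [h5]
      linarith
    set T : Finset (Place k E0) := (finite_support (k := k) c).toFinset ∪
      (vo_finite (der_ne (k := k) (K := E0))).toFinset with hT
    have hs1 : ∑ q ∈ T, q.ord c = 0 := sum_ord_finset c T fun q hq =>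
      Finset.mem_union_left _ ((finite_support (k := k) c).mem_toFinset.2 hq)
    have hs2 : ∑ q ∈ T, vo q (der k E0) = 2 := by
      rw [canDeg_finset (der_ne (k := k) (K := E0)) T fun q hq =>
        Finset.mem_union_right _ ((vo_finite (der_ne (k := k) (K := E0))).mem_toFinset.2 hq),
        canDeg_rational hx]
      rfl
    have hs3 : (2 : ℚ) ≤ ∑ q ∈ T, (1 - 1 / (r q : ℚ)) := by
      have h1 := Finset.sum_le_sum fun q (_ : q ∈ T) => hineq q
      rw [Finset.sum_sub_distrib, ← Finset.mul_sum, ← Finset.mul_sum] at h1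
      have h2 : ∑ q ∈ T, (q.ord c : ℚ) = 0 := by exact_mod_cast hs1
      have h3 : ∑ q ∈ T, (vo q (der k E0) : ℚ) = 2 := by exact_mod_cast hs2
      rw [h2, h3] at h1
      have h4 : (0 : ℚ) < M := by exact_mod_cast hMpos
      by_contra hcon
      push Not at hcon
      nlinarith
    have hs4 : (2 : ℚ) ≤ ∑ q ∈ T.filter (fun q => 2 ≤ r q), (1 - 1 / (r q : ℚ)) := by
      rw [Finset.sum_filter_of_ne]
      · exact hs3
      · intro q _ hne
        by_contra hcon
        apply hne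
        have h1 : r q = 1 := by
          have := hrpos q
          omega
        rw [h1]; norm_num
    have hs5 := six (T.filter (fun q => 2 ≤ r q)) r (fun q hq => (Finset.mem_filter.1 hq).2) hs4
    refine key _ (fun q => min (r q) 6) (fun q hq => ⟨?_, ?_, ?_⟩) hs5
    · exact le_min (hrpos q) (by norm_num)
    · exact (min_le_right _ _).trans hN6
    · intro w e hw
      exact (min_le_left _ _).trans (hr2 q w e hw)
  · exact absurd ⟨x, hx⟩ h
  · exact key S ν h1 h2

end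

end Pool.Agent.W619.PQ
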