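import Pool.Agent.W619.PQ.Local
import Pool.Agent.W619.PQ.Curve

/-! The pluricanonical form on the quotient of a product of curves. -/

set_option autoImplicit false
set_option linter.overlappingInstances false
set_option linter.unusedSectionVars false

open Polynomial FF IntermediateField

namespace Pool.Agent.W619.PQ

open Pool.Agent.W603.LV

section

variable {k L : Type*} [Field k] [CharZero k] [IsAlgClosed k] [Field L] [Algebra k L]
  {G : Subgroup (L ≃ₐ[k] L)} [Finite G] {n : ℕ} {E0 E : Fin n → Type*}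
  [∀ i, Field (E0 i)] [∀ i, Field (E i)] [∀ i, Algebra k (E0 i)] [∀ i, Algebra k (E i)]
  [∀ i, Algebra (E0 i) (E i)] [∀ i, Algebra (E i) L] [∀ i, Algebra (E0 i) (fixedField G)]
  [∀ i, Algebra (E0 i) L]
  [∀ i, IsScalarTower k (E0 i) (E i)] [∀ i, IsScalarTower k (E i) L]
  [∀ i, IsScalarTower k (E0 i) L]
  [∀ i, IsScalarTower k (E0 i) (fixedField G)]
  [∀ i, IsScalarTower (E0 i) (E i) L] [∀ i, IsScalarTower (E0 i) (fixedField G) L]
  [∀ i, IsFF k (E0 i)] [∀ i, IsFF k (E i)] [∀ i, FiniteDimensional (E0 i) (E i)]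

open scoped Classical in
theorem exists_regular_product (ρ : ∀ i, G →* (E i ≃ₐ[k] E i))
    (hcomp : ∀ i (g : G) z, algebraMap (E i) L (ρ i g z) = (g : L ≃ₐ[k] L) (algebraMap (E i) L z))
    (hfix : ∀ i g (z : E0 i), ρ i g (algebraMap (E0 i) (E i) z) = algebraMap (E0 i) (E i) z)
    (hinv : ∀ i (z : E i), (∀ g, ρ i g z = z) → ∃ z0, algebraMap (E0 i) (E i) z0 = z)
    (hrat : ∀ i, ¬ ∃ t : E i, k⟮t⟯ = ⊤) (N : Fin n → ℕ)
    (hN : ∀ i, 6 ≤ N i ∨ (1 ≤ N i ∧ ¬ ∃ t : E0 i, k⟮t⟯ = ⊤) ∨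
      ∃ (S : Finset (Place k (E0 i))) (ν : Place k (E0 i) → ℕ),
        (∀ q ∈ S, 1 ≤ ν q ∧ ν q ≤ N i ∧ ∀ (w : Place k (E i)) (e : ℕ), Over w q e → ν q ≤ e) ∧
        (2 : ℚ) ≤ ∑ q ∈ S, (1 - 1 / (ν q : ℚ)))
    (hage : ∀ g : G, g ≠ 1 → (1 : ℚ) ≤ ∑ i with ρ i g ≠ 1,
      1 / ((min (orderOf (ρ i g)) (N i) : ℕ) : ℚ)) :
    ∃ (m : ℕ) (D0 : ∀ i, Derivation k (E0 i) (E0 i)) (c : ∀ i, E0 i), 1 ≤ m ∧ (∀ i, D0 i ≠ 0) ∧
      (∀ i, c i ≠ 0) ∧ ∀ x : ∀ i, E0 i, (∀ i, Transcendental k (x i)) →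
        ∀ (v : Place k (fixedField G)) (D : Fin n → Derivation k (fixedField G) (fixedField G)),
          (∀ j, Pres v (D j)) → v.Reg (extForm m D0 x c D) := by
  have hdata := fun i => curve_data (ρ i) (hfix i) (hinv i) (hrat i) (N i) (hN i)
  choose m0 D0 c0 hm0 hD0 hc0 hq0 using hdata
  -- a common weight
  let M : ℕ := ∏ i, m0 i
  let a : Fin n → ℕ := fun i => ∏ j ∈ Finset.univ.erase i, m0 j
  have haM : ∀ i, (a i : ℤ) * m0 i = M := by
    intro i
    have : a i * m0 i = M := Finset.prod_erase_mul _ _ (Finset.mem_univ i)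
    exact_mod_cast this
  have hMpos : 1 ≤ M := Finset.one_le_prod' fun i _ => hm0 i
  have hapos : ∀ i, 1 ≤ a i := fun i => Finset.one_le_prod' fun i _ => hm0 i
  let c : ∀ i, E0 i := fun i => c0 i ^ a i
  have hc : ∀ i, c i ≠ 0 := fun i => pow_ne_zero _ (hc0 i)
  have hq : ∀ i (q : Place k (E0 i)), ∃ ν : ℕ, 1 ≤ ν ∧ ν ≤ N i ∧
        (∀ (w : Place k (E i)) (e : ℕ), Over w q e → ν ≤ e) ∧
        (M : ℤ) ≤ ν * (q.ord (c i) + M * (1 - vo q (D0 i))) := by
    intro i q
    obtain ⟨ν, h1, h2, h3, h4⟩ := hq0 i q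
    refine ⟨ν, h1, h2, h3, ?_⟩
    have h5 : q.ord (c i) = a i * q.ord (c0 i) := q.ord_pow _ _
    rw [h5, ← haM i]
    have h6 : (0 : ℤ) ≤ a i := by positivity
    have h7 := mul_le_mul_of_nonneg_left h4 h6
    calc (a i : ℤ) * m0 i ≤ a i * (ν * (q.ord (c0 i) + m0 i * (1 - vo q (D0 i)))) := h7
      _ = _ := by ring
  refine ⟨M, D0, c, hMpos, hD0, hc, ?_⟩
  intro x hx v D hD
  obtain ⟨w, e, I, hwv, hIe, hI⟩ := exists_inertia G v
  -- the local data at each factor
  have hex : ∀ i, ∃ s : ℚ, 0 ≤ s ∧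
      (((∀ f : E0 i, v.ord (algebraMap (E0 i) (fixedField G) f) = 0) ∧ s = 0) ∨
        ∃ (p : Place k (E0 i)) (α ν r b : ℕ) (q : Place k (E i)), Over v p α ∧ Over w q b ∧
          Over q p r ∧ e * α = b * r ∧ 1 ≤ ν ∧ ν ≤ N i ∧ ν ≤ r ∧ s = α / ν ∧
          (M : ℤ) ≤ ν * (p.ord (c i) + M * (1 - vo p (D0 i)))) := by
    intro i
    by_cases htriv : ∀ f : E0 i, v.ord (algebraMap (E0 i) (fixedField G) f) = 0
    · exact ⟨0, le_rfl, Or.inl ⟨htriv, rfl⟩⟩
    · push Not at htriv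
      obtain ⟨α, p, hp⟩ := exists_over (K := E0 i) v htriv
      obtain ⟨q, b, r, h1, h2, h3⟩ := exists_factor_place (E := E i) hwv hp
      obtain ⟨ν, h4, h5, h6, h7⟩ := hq i p
      exact ⟨α / ν, by positivity, Or.inr ⟨p, α, ν, r, b, q, hp, h1, h2, h3, h4, h5, h6 q r h2,
        rfl, h7⟩⟩
  choose s hs0 hs using hex
  refine extForm_regular M D0 hD0 x c hx hc v s ?_ ?_ D hD
  · intro i
    rcases hs i with h | ⟨p, α, ν, r, b, q, h1, h2, h3, h4, h5, h6, h7, h8, h9⟩
    · exact Or.inl h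
    · refine Or.inr ⟨p, α, h1, ?_⟩
      rw [h8]
      have hν : (0 : ℚ) < ν := by exact_mod_cast h5
      have h10 : (M : ℚ) ≤ ν * (p.ord (c i) + M * (1 - vo p (D0 i))) := by exact_mod_cast h9
      rw [div_mul_eq_mul_div, div_le_iff₀ hν]
      have h11 : (0 : ℚ) ≤ α := by positivity
      calc (α : ℚ) * M ≤ α * (ν * (p.ord (c i) + M * (1 - vo p (D0 i)))) :=
            mul_le_mul_of_nonneg_left h10 h11
        _ = _ := by ring
  · by_cases hall : ∀ i, ∀ f : E0 i, v.ord (algebraMap (E0 i) (fixedField G) f) = 0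
    · exact Or.inl hall
    right
    have hepos : 0 < e := hwv.1
    rcases Nat.lt_or_ge 1 e with he | he
    · -- ramified
      obtain ⟨g, hgI, hgord, hgen⟩ := exists_generator w I hI
      rw [hIe] at hgord hgen
      have hg1 : g ≠ 1 := by
        rintro rfl
        rw [Subgroup.coe_one, orderOf_one] at hgord
        omega
      refine (hage g hg1).trans ?_
      refine le_trans ?_ (Finset.sum_le_sum_of_subset_of_nonneg
        (s := Finset.univ.filter fun i => ρ i g ≠ 1) (Finset.subset_univ _) fun i _ _ => hs0 i)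
      refine Finset.sum_le_sum fun i hi => ?_
      have hmoved : ρ i g ≠ 1 := (Finset.mem_filter.1 hi).2
      obtain ⟨f, hf⟩ := nontrivial_of_moved (E0 := E0 i) hwv (g : L ≃ₐ[k] L) (ρ i g)
        (hcomp i g) (hI g hgI) hmoved
      rcases hs i with h | ⟨p, α, ν, r, b, q, h1, h2, h3, h4, h5, h6, h7, h8, h9⟩
      · exact absurd (h.1 f) hf
      · have hfo : IsOfFinOrder (ρ i g) := (ρ i).isOfFinOrder (isOfFinOrder_of_finite g)
        have hb := order_bound h2 h3 hepos h4 (g : L ≃ₐ[k] L) (ρ i g) (hcomp i g) (hI g hgI)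
          hgen hfo
        rw [h8]
        have hν : (0 : ℚ) < ν := by exact_mod_cast h5
        have hα : 1 ≤ α := h1.1
        have hpos : 0 < min (orderOf (ρ i g)) (N i) :=
          lt_min hfo.orderOf_pos (by omega)
        have hposq : (0 : ℚ) < ((min (orderOf (ρ i g)) (N i) : ℕ) : ℚ) := by exact_mod_cast hpos
        rw [div_le_div_iff₀ hposq hν, one_mul]
        have h10 : ν ≤ α * min (orderOf (ρ i g)) (N i) := by
          rcases le_total (orderOf (ρ i g)) (N i) with h | h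
          · rw [min_eq_left h, mul_comm]
            exact h7.trans hb
          · rw [min_eq_right h]
            nlinarith
        exact_mod_cast h10
    · -- unramified
      have he1 : e = 1 := by omega
      push Not at hall
      obtain ⟨i, f, hf⟩ := hall
      refine le_trans ?_ (Finset.single_le_sum (fun i _ => hs0 i) (Finset.mem_univ i))
      rcases hs i with h | ⟨p, α, ν, r, b, q, h1, h2, h3, h4, h5, h6, h7, h8, h9⟩
      · exact absurd (h.1 f) hf
      · rw [h8]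
        have hν : (0 : ℚ) < ν := by exact_mod_cast h5
        rw [le_div_iff₀ hν, one_mul]
        have h10 : ν ≤ α := by
          rw [he1, one_mul] at h4
          have := h2.1
          nlinarith
        exact_mod_cast h10

end

end Pool.Agent.W619.PQ
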