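import Pool.Agent.W619.PQ.Alg
import Pool.Agent.W619.PQ.Main
import Pool.Agent.W619.PQ.Defs
import Pool.Agent.W619.PQ.Dual

/-! Quotients of products of curves of Kodaira dimension `-∞` are uniruled. -/

set_option autoImplicit false
set_option linter.overlappingInstances false
set_option linter.unusedSectionVars false

universe u

open Polynomial FF IntermediateField

namespace Pool.Agent.W619.PQ

open Pool.Agent.W603.LV

section

variable {k K : Type*} [Field k] [Field K] [Algebra k K] {n : ℕ} {E : Fin n → Type*}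
  [∀ i, Field (E i)] [∀ i, Algebra k (E i)] [∀ i, Algebra (E i) K]

theorem extForm_pluri (m : ℕ) (D0 : ∀ i, Derivation k (E i) (E i)) (x c : ∀ i, E i) :
    IsPluriForm k K n m (extForm m D0 x c) := by
  intro A D
  have h : (Matrix.of fun j i => (∑ l, A j l • D l : Derivation k K K) (algebraMap (E i) K (x i))) =
      A * (Matrix.of fun j i => D j (algebraMap (E i) K (x i))) := by
    ext j i
    rw [Matrix.mul_apply]
    simp only [Matrix.of_apply]
    rw [← Derivation.coeFnAddMonoidHom_apply, map_sum, Finset.sum_apply]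
    simp [Derivation.coeFnAddMonoidHom_apply]
  unfold extForm
  rw [h, Matrix.det_mul, mul_pow]
  ring

theorem extForm_ne [CharZero k] (m : ℕ) (D0 : ∀ i, Derivation k (E i) (E i)) (x c : ∀ i, E i)
    (hc : ∀ i, c i ≠ 0) (hD : ∀ i, D0 i (x i) ≠ 0)
    (hx : IsTranscendenceBasis k fun i => algebraMap (E i) K (x i)) :
    ∃ D, extForm m D0 x c D ≠ (0 : K) := by
  classical
  choose D hDD using fun j => exists_dual (fun i => algebraMap (E i) K (x i)) hx j
  refine ⟨D, ?_⟩
  unfold extForm
  refine mul_ne_zero (Finset.prod_ne_zero_iff.2 fun i _ => ?_) (pow_ne_zero _ ?_)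
  · rw [Ne, map_eq_zero]
    exact div_ne_zero (hc i) (pow_ne_zero _ (hD i))
  · have : (Matrix.of fun j i => D j (algebraMap (E i) K (x i))) = (1 : Matrix (Fin n) (Fin n) K) := by
      ext j i
      rw [Matrix.of_apply, hDD, Matrix.one_apply]
      by_cases h : i = j
      · subst h; simp
      · rw [if_neg h, if_neg (Ne.symm h)]
    rw [this, Matrix.det_one]
    exact one_ne_zero

end

section

variable {k : Type*} {L : Type u} [Field k] [Field L] [Algebra k L]

/-- The function field of the quotient of a factor. -/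
noncomputable abbrev Quo (G : Subgroup (L ≃ₐ[k] L)) (F : IntermediateField k L)
    (hst : ∀ g ∈ G, ∀ z ∈ F, g z ∈ F) : IntermediateField k F :=
  fixedField (rho G F hst).range

theorem quo_fixed {G : Subgroup (L ≃ₐ[k] L)} {F : IntermediateField k L}
    {hst : ∀ g ∈ G, ∀ z ∈ F, g z ∈ F} (z : Quo G F hst) (g : G) :
    rho G F hst g (z : F) = z := z.2 ⟨rho G F hst g, ⟨g, rfl⟩⟩

/-- The inclusion of function fields. -/
noncomputable def quoHom (G : Subgroup (L ≃ₐ[k] L)) (F : IntermediateField k L)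
    (hst : ∀ g ∈ G, ∀ z ∈ F, g z ∈ F) : Quo G F hst →ₐ[k] fixedField G :=
  (F.val.comp (Quo G F hst).val).codRestrict (fixedField G).toSubalgebra (fun z g => by
    have := congrArg (Subtype.val : F → L) (quo_fixed z g)
    exact this)

open scoped Classical in
theorem main_generic [CharZero k] [IsAlgClosed k] (n : ℕ) (hn : Algebra.trdeg k L = n)
    (F : Fin n → IntermediateField k L) [hF : ∀ i, IsFF k (F i)] (hsup : ⨆ i, F i = ⊤)
    (G : Subgroup (L ≃ₐ[k] L)) [Finite G] (hst : ∀ i, ∀ g ∈ G, ∀ z ∈ F i, g z ∈ F i)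
    (N : Fin n → ℕ)
    (hN : ∀ i, 6 ≤ N i ∨ (1 ≤ N i ∧ ¬ ∃ t : Quo G (F i) (hst i), k⟮t⟯ = ⊤) ∨
      ∃ (S : Finset (Place k (Quo G (F i) (hst i)))) (ν : Place k (Quo G (F i) (hst i)) → ℕ),
        (∀ q ∈ S, 1 ≤ ν q ∧ ν q ≤ N i ∧ ∀ (w : Place k (F i)) (e : ℕ), Over w q e → ν q ≤ e) ∧
        (2 : ℚ) ≤ ∑ q ∈ S, (1 - 1 / (ν q : ℚ)))
    (hage : ∀ g : G, g ≠ 1 → (1 : ℚ) ≤ ∑ i with rho G (F i) (hst i) g ≠ 1,
      1 / ((min (orderOf (rho G (F i) (hst i) g)) (N i) : ℕ) : ℚ))
    (hκ : KodairaNeg k (fixedField G) n) : IsUniruled k (fixedField G) n := by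
  by_cases hrat : ∀ i, ¬ ∃ t : F i, k⟮t⟯ = ⊤
  · exfalso
    letI iA : ∀ i, Algebra (Quo G (F i) (hst i)) (fixedField G) := fun i =>
      (quoHom G (F i) (hst i)).toRingHom.toAlgebra
    have hfr : ∀ i, Finite (rho G (F i) (hst i)).range := fun i =>
      Finite.of_surjective _ (rho G (F i) (hst i)).rangeRestrict_surjective
    have t1 : ∀ i, IsScalarTower k (Quo G (F i) (hst i)) (fixedField G) := fun i =>
      IsScalarTower.of_algebraMap_eq fun c => ((quoHom G (F i) (hst i)).commutes c).symm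
    have t2 : ∀ i, IsScalarTower (Quo G (F i) (hst i)) (fixedField G) L := fun i =>
      IsScalarTower.of_algebraMap_eq fun c => rfl
    have f1 : ∀ i, FiniteDimensional (Quo G (F i) (hst i)) (F i) := fun i =>
      fixed_finite (rho G (F i) (hst i)).range
    have f2 : ∀ i, IsFF k (Quo G (F i) (hst i)) := fun i => fixed_isFF (rho G (F i) (hst i)).range
    obtain ⟨m, D0, c, hm, hD0, hc, hreg⟩ := exists_regular_product (G := G)
      (E0 := fun i => Quo G (F i) (hst i)) (E := fun i => F i)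
      (fun i => rho G (F i) (hst i)) (fun i g z => rfl) (fun i g z => quo_fixed z g)
      (fun i z hz => ⟨⟨z, fun h => by
        obtain ⟨h, g, rfl⟩ := h
        exact hz g⟩, rfl⟩) hrat N hN hage
    choose x hx using fun i => IsFF.exists_transcendental (k := k) (K := Quo G (F i) (hst i))
    have hb : IsTranscendenceBasis k fun i => algebraMap (Quo G (F i) (hst i)) (fixedField G) (x i) := by
      apply basis_down (L := L) hn
      exact basis_of_iSup F hsup hn (fun i => (x i : F i)) fun i =>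
        transcendental_map (E := F i) (hx i)
    obtain ⟨D, hD⟩ := extForm_ne m D0 x c hc (fun i => der_ne_zero (hD0 i) (hx i)) hb
    exact hD (hκ m hm _ (extForm_pluri m D0 x c) (fun v _ D hD => hreg x hx v D hD) D)
  · push Not at hrat
    obtain ⟨i0, t, ht⟩ := hrat
    obtain ⟨M, h1, h2, h3, h4⟩ := rational_factor F hsup hn i0 t ht
    refine ⟨M, inferInstance, inferInstance, h1, h2, ⟨?_⟩⟩
    let e1 : RatFunc M ≃ₐ[M] M⟮(t : L)⟯ := RatFunc.algEquivOfTranscendental (t : L) h3
    let e2 : M⟮(t : L)⟯ ≃ₐ[M] L := (equivOfEq h4).trans topEquiv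
    exact (((e1.trans e2).symm.restrictScalars k : L ≃ₐ[k] RatFunc M) : L →ₐ[k] RatFunc M).comp
      (fixedField G).val

end

end Pool.Agent.W619.PQ
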