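import Pool.Agent.W619.PQ.Ram

/-! Restriction of automorphisms to stable subfields; fixed fields of function fields of curves. -/

set_option autoImplicit false
set_option linter.overlappingInstances false
set_option linter.unusedSectionVars false

open Polynomial FF IntermediateField

namespace Pool.Agent.W619.PQ

open Pool.Agent.W603.LV

section

variable {k L : Type*} [Field k] [Field L] [Algebra k L] (G : Subgroup (L ≃ₐ[k] L))

/-- The action of `G` on a stable subfield. -/
noncomputable def rho (E : IntermediateField k L) (hst : ∀ g ∈ G, ∀ z ∈ E, g z ∈ E) :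
    G →* (E ≃ₐ[k] E) where
  toFun g := AlgEquiv.ofAlgHom
    ((((g : L ≃ₐ[k] L) : L →ₐ[k] L).comp E.val).codRestrict E.toSubalgebra
      (fun z => hst g g.2 z z.2))
    (((((g⁻¹ : G) : L ≃ₐ[k] L) : L →ₐ[k] L).comp E.val).codRestrict E.toSubalgebra
      (fun z => hst _ (g⁻¹).2 z z.2))
    (by
      apply AlgHom.ext
      intro z
      apply Subtype.ext
      change (g : L ≃ₐ[k] L) (((g⁻¹ : G) : L ≃ₐ[k] L) (z : L)) = z
      rw [Subgroup.coe_inv, ← AlgEquiv.mul_apply, mul_inv_cancel]; rfl)
    (by
      apply AlgHom.ext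
      intro z
      apply Subtype.ext
      change ((g⁻¹ : G) : L ≃ₐ[k] L) ((g : L ≃ₐ[k] L) (z : L)) = z
      rw [Subgroup.coe_inv, ← AlgEquiv.mul_apply, inv_mul_cancel]; rfl)
  map_one' := by
    apply AlgEquiv.ext
    intro z
    rfl
  map_mul' a b := by
    apply AlgEquiv.ext
    intro z
    rfl

theorem rho_coe (E : IntermediateField k L) (hst : ∀ g ∈ G, ∀ z ∈ E, g z ∈ E) (g : G) (z : E) :
    ((rho G E hst g z : E) : L) = (g : L ≃ₐ[k] L) (z : L) := rfl

end

section

variable {k E0 E : Type*} [Field k] [Field E0] [Field E] [Algebra k E0] [Algebra k E]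
  [Algebra E0 E] [IsScalarTower k E0 E]

theorem exists_trans_down [Algebra.IsAlgebraic E0 E] [IsFF k E] : ∃ t : E0, Transcendental k t := by
  by_contra hcon
  push Not at hcon
  have h1 : Algebra.IsAlgebraic k E0 := ⟨fun x => by
    have := hcon x
    simpa [Transcendental] using this⟩
  have h2 : Algebra.IsAlgebraic k E := Algebra.IsAlgebraic.trans k E0 E
  obtain ⟨t, ht⟩ := IsFF.exists_transcendental (k := k) (K := E)
  exact ht (h2.isAlgebraic t)

theorem isFF_down [FiniteDimensional E0 E] [IsFF k E] : IsFF k E0 := by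
  obtain ⟨t, ht⟩ := exists_trans_down (k := k) (E0 := E0) (E := E)
  have htE : Transcendental k (algebraMap E0 E t) := fun h =>
    ht ((isAlgebraic_algebraMap_iff (algebraMap E0 E).injective).1 h)
  have h1 : FiniteDimensional k⟮algebraMap E0 E t⟯ E := IsFF.finite htE
  have hmap : k⟮t⟯.map (IsScalarTower.toAlgHom k E0 E) = k⟮algebraMap E0 E t⟯ := by
    rw [adjoin_map, Set.image_singleton]
    rfl
  let e : k⟮t⟯ ≃ₐ[k] k⟮algebraMap E0 E t⟯ :=
    (k⟮t⟯.equivMap (IsScalarTower.toAlgHom k E0 E)).trans (equivOfEq hmap)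
  have he : ∀ z, ((e z : k⟮algebraMap E0 E t⟯) : E) = algebraMap E0 E z := fun z => rfl
  have h2 : FiniteDimensional k⟮t⟯ E := by
    refine Module.Finite.of_equiv_equiv (A₁ := k⟮algebraMap E0 E t⟯) (B₁ := E) e.symm.toRingEquiv
      (RingEquiv.refl E) ?_
    ext z
    obtain ⟨y, rfl⟩ := e.surjective z
    change algebraMap k⟮t⟯ E (e.symm (e y)) = ((e y : k⟮algebraMap E0 E t⟯) : E)
    rw [AlgEquiv.symm_apply_apply, he]
    rfl
  have h3 : FiniteDimensional k⟮t⟯ E0 := FiniteDimensional.left k⟮t⟯ E0 E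
  exact IsFF.of_finite ht h3

end

section

variable {k E : Type*} [Field k] [Field E] [Algebra k E] (H : Subgroup (E ≃ₐ[k] E)) [Finite H]

theorem fixed_finite : FiniteDimensional (fixedField H) E := by
  have hGal : IsGaloisGroup H (fixedField H) E := isGaloisGroup_fixed H
  exact IsGaloisGroup.finiteDimensional H (fixedField H) E

theorem fixed_isFF [IsFF k E] : IsFF k (fixedField H) := by
  have := fixed_finite H
  exact isFF_down (E := E)

end

end Pool.Agent.W619.PQ
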