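import Pool.Agent.W619.PQ.Log

/-! Exterior products of pluricanonical forms of curves: regularity at a place. -/

set_option autoImplicit false
set_option linter.overlappingInstances false
set_option linter.unusedSectionVars false

open Polynomial FF

namespace Pool.Agent.W619.PQ

open Pool.Agent.W603.LV

section

variable {k K : Type*} [Field k] [Field K] [Algebra k K]

theorem map_E2 {E : Type*} [Field E] [Algebra k E] [Algebra E K] [IsScalarTower k E K]
    (t y : E) (G : k[X][X]) :
    algebraMap E K (E2 t y G) = E2 (algebraMap E K t) (algebraMap E K y) G := by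
  rw [E2_apply, E2_apply, hom_eval₂]
  congr 1
  ext1
  · ext a
    simp [← IsScalarTower.algebraMap_apply]
  · simp

/-- On a function field of one variable inside `K`, derivations are determined by one value. -/
theorem ratio' [CharZero k] {E : Type*} [Field E] [Algebra k E] [Algebra E K] [IsScalarTower k E K]
    [IsFF k E] {t : E} (ht : Transcendental k t) (f : E) :
    ∃ r : E, (∀ D : Derivation k E E, D f = r * D t) ∧
      ∀ D : Derivation k K K, D (algebraMap E K f) = algebraMap E K r * D (algebraMap E K t) := by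
  obtain ⟨G, hG, hG'⟩ := exists_poly ht f
  refine ⟨- E2 t f (dX G) / E2 t f (derivative G), fun D => ?_, fun D => ?_⟩
  · have := chain D t f G
    rw [hG, map_zero] at this
    field_simp
    linear_combination -this
  · have := chain D (algebraMap E K t) (algebraMap E K f) G
    rw [← map_E2, ← map_E2, ← map_E2, hG, map_zero, map_zero] at this
    have h1 : algebraMap E K (E2 t f (derivative G)) ≠ 0 := by simpa using hG'
    rw [map_div₀, map_neg]
    field_simp
    linear_combination -this

theorem ord_prod {ι : Type*} (s : Finset ι) (v : Place k K) (f : ι → K) (hf : ∀ i ∈ s, f i ≠ 0) :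
    v.ord (∏ i ∈ s, f i) = ∑ i ∈ s, v.ord (f i) := by
  classical
  induction s using Finset.induction_on with
  | empty => simp [v.ord_one]
  | insert a s ha ih =>
    rw [Finset.prod_insert ha, Finset.sum_insert ha, v.ord_mul (hf a (Finset.mem_insert_self _ _))
      (Finset.prod_ne_zero_iff.2 fun i hi => hf i (Finset.mem_insert_of_mem hi)),
      ih fun i hi => hf i (Finset.mem_insert_of_mem hi)]

variable [CharZero k] [IsAlgClosed k] {n : ℕ} {E : Fin n → Type*} [∀ i, Field (E i)]
  [∀ i, Algebra k (E i)] [∀ i, Algebra (E i) K] [∀ i, IsScalarTower k (E i) K] [∀ i, IsFF k (E i)]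

/-- The exterior product of the `m`-canonical forms on the curves `E i`, which are given by their
values `c i` on the vector fields `D0 i`. -/
noncomputable def extForm (m : ℕ) (D0 : ∀ i, Derivation k (E i) (E i)) (x c : ∀ i, E i)
    (D : Fin n → Derivation k K K) : K :=
  (∏ i, algebraMap (E i) K (c i / (D0 i (x i)) ^ m)) *
    (Matrix.det (Matrix.of fun j i => D j (algebraMap (E i) K (x i)))) ^ m

theorem extForm_eq (m : ℕ) (D0 : ∀ i, Derivation k (E i) (E i)) (hD0 : ∀ i, D0 i ≠ 0)
    (x c : ∀ i, E i) (hx : ∀ i, Transcendental k (x i)) (z : ∀ i, E i)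
    (hz : ∀ i, Transcendental k (z i)) (D : Fin n → Derivation k K K) :
    extForm m D0 x c D = (∏ i, algebraMap (E i) K (c i * (z i / D0 i (z i)) ^ m)) *
      (Matrix.det (Matrix.of fun j i => D j (algebraMap (E i) K (z i)) / algebraMap (E i) K (z i))) ^ m := by
  classical
  have hr : ∀ i, ∃ r : E i, (∀ D : Derivation k (E i) (E i), D (x i) = r * D (z i)) ∧
      ∀ D : Derivation k K K, D (algebraMap (E i) K (x i)) =
        algebraMap (E i) K r * D (algebraMap (E i) K (z i)) := fun i => ratio' (hz i) (x i)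
  choose r hr1 hr2 using hr
  have hz0 : ∀ i, z i ≠ 0 := fun i h => hz i (by rw [h]; exact isAlgebraic_zero)
  have hDz : ∀ i, D0 i (z i) ≠ 0 := fun i => der_ne_zero (hD0 i) (hz i)
  have hDx : ∀ i, D0 i (x i) ≠ 0 := fun i => der_ne_zero (hD0 i) (hx i)
  have hr0 : ∀ i, r i ≠ 0 := by
    intro i h
    have := hr1 i (D0 i)
    rw [h, zero_mul] at this
    exact hDx i this
  have h1 : Matrix.det (Matrix.of fun j i => D j (algebraMap (E i) K (x i))) =
      (∏ i, algebraMap (E i) K (r i * z i)) *
      Matrix.det (Matrix.of fun j i => D j (algebraMap (E i) K (z i)) / algebraMap (E i) K (z i)) := by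
    rw [← Matrix.det_mul_row]
    congr 1
    ext j i
    simp only [Matrix.of_apply]
    rw [hr2 i (D j), map_mul]
    have : algebraMap (E i) K (z i) ≠ 0 := by simpa using hz0 i
    field_simp
  unfold extForm
  rw [h1, mul_pow, ← mul_assoc, ← Finset.prod_pow, ← Finset.prod_mul_distrib]
  congr 1
  refine Finset.prod_congr rfl fun i _ => ?_
  rw [← map_pow (algebraMap (E i) K), ← map_mul (algebraMap (E i) K)]
  congr 1
  rw [hr1 i (D0 i), mul_pow, mul_pow, div_pow]
  have h5 := pow_ne_zero m (hr0 i)
  have h6 := pow_ne_zero m (hDz i)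
  field_simp

/-- Regularity of the exterior product at a place. -/
theorem extForm_regular (m : ℕ) (D0 : ∀ i, Derivation k (E i) (E i)) (hD0 : ∀ i, D0 i ≠ 0)
    (x c : ∀ i, E i) (hx : ∀ i, Transcendental k (x i)) (hc : ∀ i, c i ≠ 0) (v : Place k K)
    (s : Fin n → ℚ)
    (hs : ∀ i, ((∀ f : E i, v.ord (algebraMap (E i) K f) = 0) ∧ s i = 0) ∨
      ∃ (p : Place k (E i)) (e : ℕ), Over v p e ∧
        s i * m ≤ e * ((p.ord (c i) : ℚ) + m * (1 - vo p (D0 i))))
    (hsum : (∀ i, ∀ f : E i, v.ord (algebraMap (E i) K f) = 0) ∨ 1 ≤ ∑ i, s i)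
    (D : Fin n → Derivation k K K) (hD : ∀ j, Pres v (D j)) :
    v.Reg (extForm m D0 x c D) := by
  classical
  have hx0 : ∀ i, x i ≠ 0 := fun i h => hx i (by rw [h]; exact isAlgebraic_zero)
  -- choose coordinates
  have hz : ∀ i, ∃ z : E i, Transcendental k z ∧
      (((∀ f : E i, v.ord (algebraMap (E i) K f) = 0)) ∨
      s i * m ≤ (v.ord (algebraMap (E i) K (c i * (z / D0 i z) ^ m)) : ℚ)) := by
    intro i
    rcases hs i with ⟨h1, h2⟩ | ⟨p, e, he, h⟩
    · exact ⟨x i, hx i, Or.inl h1⟩
    · obtain ⟨t, ht0, ht⟩ := p.surj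
      have htt : Transcendental k t := p.transcendental_of_ord_ne (by omega)
      refine ⟨t, htt, Or.inr ?_⟩
      have hDt := der_ne_zero (hD0 i) htt
      rw [he.2, p.ord_mul (hc i) (pow_ne_zero _ (div_ne_zero ht0 hDt)), p.ord_pow,
        p.ord_div ht0 hDt, ht, vo_eq p ht (hD0 i)]
      push_cast
      exact h
  choose z hz1 hz2 using hz
  rw [extForm_eq m D0 hD0 x c hx z hz1 D]
  have hz0 : ∀ i, z i ≠ 0 := fun i h => hz1 i (by rw [h]; exact isAlgebraic_zero)
  have hzK : ∀ i, algebraMap (E i) K (z i) ≠ 0 := fun i => by simpa using hz0 i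
  have hne : ∀ i, algebraMap (E i) K (c i * (z i / D0 i (z i)) ^ m) ≠ 0 := by
    intro i
    rw [Ne, map_eq_zero]
    exact mul_ne_zero (hc i) (pow_ne_zero _ (div_ne_zero (hz0 i) (der_ne_zero (hD0 i) (hz1 i))))
  by_cases hall : ∀ i, ∀ f : E i, v.ord (algebraMap (E i) K f) = 0
  · have h1 : Ge v 0 (∏ i, algebraMap (E i) K (c i * (z i / D0 i (z i)) ^ m)) := by
      right
      rw [ord_prod _ _ _ fun i _ => hne i, Finset.sum_eq_zero fun i _ => hall i _]
    have h2 := (det_log_unit v D hD (fun i => algebraMap (E i) K (z i)) fun i => hall i _).pow m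
    have h3 := h1.mul h2
    simp only [mul_zero, add_zero] at h3
    exact h3
  · have hsum' := hsum.resolve_left hall
    have h1 : (m : ℤ) ≤ v.ord (∏ i, algebraMap (E i) K (c i * (z i / D0 i (z i)) ^ m)) := by
      rw [ord_prod _ _ _ fun i _ => hne i]
      have h2 : ∀ i, s i * m ≤ (v.ord (algebraMap (E i) K (c i * (z i / D0 i (z i)) ^ m)) : ℚ) := by
        intro i
        rcases hz2 i with h | h
        · rw [h]
          rcases hs i with ⟨_, h2⟩ | ⟨p, e, he, _⟩
          · rw [h2]; simp
          · exfalso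
            obtain ⟨t, ht0, ht⟩ := p.surj
            have h3 := he.2 t
            rw [h, ht] at h3
            have := he.1
            omega
        · exact h
      have h3 := Finset.sum_le_sum fun i (_ : i ∈ Finset.univ) => h2 i
      rw [← Finset.sum_mul] at h3
      have h4 : (m : ℚ) ≤ ((∑ i, v.ord (algebraMap (E i) K (c i * (z i / D0 i (z i)) ^ m)) : ℤ) : ℚ) := by
        rw [Int.cast_sum]
        refine le_trans ?_ h3
        have : (0 : ℚ) ≤ m := by positivity
        nlinarith
      exact_mod_cast h4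
    have h2 := (det_log v D hD (fun i => algebraMap (E i) K (z i)) hzK).pow m
    have h3 : Ge v (m : ℤ) (∏ i, algebraMap (E i) K (c i * (z i / D0 i (z i)) ^ m)) := Or.inr h1
    have h4 := h3.mul h2
    have e : (m : ℤ) + m * (-1) = 0 := by ring
    rw [e] at h4
    exact h4

end

end Pool.Agent.W619.PQ
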