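import Pool.Agent.W619.PQ.Fix

/-! The local computation at a place of the fixed field. -/

set_option autoImplicit false
set_option linter.overlappingInstances false
set_option linter.unusedSectionVars false

open Polynomial FF IntermediateField

namespace Pool.Agent.W619.PQ

open Pool.Agent.W603.LV

section

variable {k K0 K1 K2 : Type*} [Field k] [Field K0] [Field K1] [Field K2] [Algebra k K0]
  [Algebra k K1] [Algebra k K2] [Algebra K0 K1] [Algebra K1 K2] [Algebra K0 K2]
  [IsScalarTower k K0 K1] [IsScalarTower k K1 K2] [IsScalarTower k K0 K2] [IsScalarTower K0 K1 K2]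

theorem over_trans {w : Place k K2} {v : Place k K1} {p : Place k K0} {e a : ℕ} (h1 : Over w v e)
    (h2 : Over v p a) : Over w p (e * a) := by
  refine ⟨Nat.mul_pos h1.1 h2.1, fun f => ?_⟩
  rw [IsScalarTower.algebraMap_apply K0 K1 K2, h1.2, h2.2]
  push_cast; ring

theorem over_unique' {w : Place k K1} {p p' : Place k K0} {e e' : ℕ} (h : Over w p e)
    (h' : Over w p' e') : p = p' ∧ e = e' := by
  have key : ∀ f, (e : ℤ) * p.ord f = e' * p'.ord f := fun f => by rw [← h.2, ← h'.2]
  obtain ⟨t, ht0, ht⟩ := p.surj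
  obtain ⟨s, hs0, hs⟩ := p'.surj
  have h1 := key t
  have h2 := key s
  rw [ht, mul_one] at h1
  rw [hs, mul_one] at h2
  have hee : (e : ℤ) = e' := by
    apply Int.dvd_antisymm (by positivity) (by positivity)
    · exact ⟨_, h2.symm⟩
    · exact ⟨_, h1⟩
  have hee' : e = e' := by exact_mod_cast hee
  refine ⟨?_, hee'⟩
  apply Place.ext
  ext f
  have h3 := key f
  rw [← hee] at h3
  exact mul_left_cancel₀ (by have := h.1; omega) h3

/-- A place which is trivial on a subfield is trivial on its algebraic extensions. -/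
theorem ord_eq_zero_of_alg [Algebra.IsAlgebraic K0 K1] (w : Place k K2)
    (h : ∀ f : K0, w.ord (algebraMap K0 K2 f) = 0) (f : K1) : w.ord (algebraMap K1 K2 f) = 0 := by
  by_cases hf : f = 0
  · rw [hf, map_zero, w.ord_zero]
  have hr : ∀ a : K0, w.Reg (algebraMap K0 K2 a) := fun a => Or.inr (h a).ge
  have hint : ∀ y : K1, IsIntegral K0 (algebraMap K1 K2 y) := fun y =>
    ((Algebra.IsAlgebraic.isAlgebraic y).isIntegral).map (IsScalarTower.toAlgHom K0 K1 K2)
  have h1 : w.Reg (algebraMap K1 K2 f) := w.reg_of_isIntegral (A := K0) hr (hint f)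
  have h2 : w.Reg (algebraMap K1 K2 f⁻¹) := w.reg_of_isIntegral (A := K0) hr (hint f⁻¹)
  have hf' : algebraMap K1 K2 f ≠ 0 := by simpa using hf
  rw [map_inv₀] at h2
  have h3 := (w.reg_iff hf').1 h1
  have h4 := (w.reg_iff (inv_ne_zero hf')).1 h2
  rw [w.ord_inv] at h4
  omega

end

section

variable {k L : Type*} [Field k] [Field L] [Algebra k L]
  {G : Subgroup (L ≃ₐ[k] L)} {E0 E : Type*} [Field E0] [Field E] [Algebra k E0] [Algebra k E]
  [Algebra E0 E] [Algebra E L] [Algebra E0 (fixedField G)] [Algebra E0 L]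
  [IsScalarTower k E0 E] [IsScalarTower k E L] [IsScalarTower k E0 L]
  [IsScalarTower k E0 (fixedField G)]
  [IsScalarTower E0 E L] [IsScalarTower E0 (fixedField G) L]

theorem exists_factor_place {v : Place k (fixedField G)} {w : Place k L} {e : ℕ}
    (hwv : Over w v e) {p : Place k E0} {a : ℕ} (hvp : Over v p a) :
    ∃ (q : Place k E) (b r : ℕ), Over w q b ∧ Over q p r ∧ e * a = b * r := by
  have h1 := over_trans hwv hvp
  obtain ⟨t, ht0, ht⟩ := p.surj
  have h2 : w.ord (algebraMap E L (algebraMap E0 E t)) ≠ 0 := by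
    rw [← IsScalarTower.algebraMap_apply E0 E L, h1.2, ht, mul_one]
    have := h1.1
    omega
  obtain ⟨b, q, hq⟩ := exists_over (K := E) w ⟨_, h2⟩
  have h3 : q.ord (algebraMap E0 E t) ≠ 0 := by
    intro h
    apply h2
    rw [hq.2, h, mul_zero]
  obtain ⟨r, p', hp'⟩ := exists_over (K := E0) q ⟨_, h3⟩
  obtain ⟨rfl, h5⟩ := over_unique' h1 (over_trans hq hp')
  exact ⟨q, b, r, hq, hp', h5⟩

theorem order_bound {w : Place k L} {e a b r : ℕ} {q : Place k E} {p : Place k E0}
    (hq : Over w q b) (hr : Over q p r) (he : 0 < e) (h : e * a = b * r) (g : L ≃ₐ[k] L)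
    (ρg : E ≃ₐ[k] E) (hcomp : ∀ z, algebraMap E L (ρg z) = g (algebraMap E L z))
    (hg : Inert w g) (hgen : ∀ z : L, z ≠ 0 → g z = z → (e : ℤ) ∣ w.ord z)
    (hfin : IsOfFinOrder ρg) : r ≤ orderOf ρg * a := by
  obtain ⟨z, hz0, hz⟩ := q.surj
  set d := orderOf ρg with hd
  have hdpos : 0 < d := hfin.orderOf_pos
  -- the norm of `z` under the cyclic group
  set y := ∏ j ∈ Finset.range d, (ρg ^ j) z with hy
  have hne : ∀ j, (ρg ^ j) z ≠ 0 := fun j h => hz0 ((map_eq_zero_iff _ (ρg ^ j).injective).1 h)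
  have hneL : ∀ j, algebraMap E L ((ρg ^ j) z) ≠ 0 := fun j h => hne j ((map_eq_zero _).1 h)
  have hy0 : y ≠ 0 := Finset.prod_ne_zero_iff.2 fun j _ => hne j
  have hfix : ρg y = y := by
    rw [hy, map_prod]
    have h1 : ∀ j, ρg ((ρg ^ j) z) = (ρg ^ (j + 1)) z := fun j => by
      rw [pow_succ']; rfl
    simp only [h1]
    have h2 := Finset.prod_range_succ (fun j => (ρg ^ j) z) d
    rw [Finset.prod_range_succ'] at h2
    have h3 : (ρg ^ d) z = z := by rw [hd, pow_orderOf_eq_one]; rfl
    rw [h3, pow_zero] at h2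
    exact mul_right_cancel₀ hz0 h2
  have hord : ∀ j : ℕ, w.ord (algebraMap E L ((ρg ^ j) z)) = b := by
    intro j
    induction j with
    | zero =>
      have : (ρg ^ 0) z = z := by rw [pow_zero]; rfl
      rw [this, hq.2, hz, mul_one]
    | succ j ih =>
      have : (ρg ^ (j + 1)) z = ρg ((ρg ^ j) z) := by rw [pow_succ']; rfl
      rw [this, hcomp, hg.ord_eq, ih]
  have hyL : w.ord (algebraMap E L y) = d * b := by
    rw [hy, map_prod]
    have : ∀ s : Finset ℕ, w.ord (∏ j ∈ s, algebraMap E L ((ρg ^ j) z)) = s.card * b := by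
      intro s
      classical
      induction s using Finset.induction_on with
      | empty => simp [w.ord_one]
      | insert j s hj ih =>
        rw [Finset.prod_insert hj, w.ord_mul (hneL j)
          (Finset.prod_ne_zero_iff.2 fun i _ => hneL i), ih, hord,
          Finset.card_insert_of_notMem hj]
        push_cast; ring
    rw [this, Finset.card_range]
  have hdvd := hgen (algebraMap E L y) (by simpa using hy0) (by rw [← hcomp, hfix])
  rw [hyL] at hdvd
  obtain ⟨x, hx⟩ := hdvd
  have hb := hq.1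
  have hrpos := hr.1
  have hxpos : 0 < x := by
    by_contra hcon
    push Not at hcon
    have h1 : (0 : ℤ) < d * b := by positivity
    have h2 : (e : ℤ) * x ≤ 0 := mul_nonpos_of_nonneg_of_nonpos (by positivity) hcon
    omega
  have h4 : (e : ℤ) * (d * a) = e * (x * r) := by
    have h5 : (e : ℤ) * a = b * r := by exact_mod_cast h
    calc (e : ℤ) * (d * a) = d * (e * a) := by ring
      _ = (d * b) * r := by rw [h5]; ring
      _ = e * (x * r) := by rw [hx]; ring
  have h6 : (d : ℤ) * a = x * r := mul_left_cancel₀ (by positivity) h4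
  have h7 : (r : ℤ) ≤ d * a := by
    rw [h6]
    have : (0 : ℤ) ≤ r := by positivity
    nlinarith
  exact_mod_cast h7

theorem nontrivial_of_moved [Algebra.IsAlgebraic E0 E] {v : Place k (fixedField G)}
    {w : Place k L} {e : ℕ} (hwv : Over w v e) (g : L ≃ₐ[k] L) (ρg : E ≃ₐ[k] E)
    (hcomp : ∀ z, algebraMap E L (ρg z) = g (algebraMap E L z)) (hg : Inert w g)
    (hne : ρg ≠ 1) : ∃ f : E0, v.ord (algebraMap E0 (fixedField G) f) ≠ 0 := by
  by_contra hcon
  push Not at hcon
  have h1 : ∀ f : E0, w.ord (algebraMap E0 L f) = 0 := by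
    intro f
    rw [IsScalarTower.algebraMap_apply E0 (fixedField G) L, hwv.2, hcon, mul_zero]
  have h2 : ∀ f : E, w.ord (algebraMap E L f) = 0 := ord_eq_zero_of_alg w h1
  apply hne
  apply AlgEquiv.ext
  intro z
  by_contra hz
  have h3 : ρg z - z ≠ 0 := sub_ne_zero.2 hz
  have h4 := hg (algebraMap E L z) (Or.inr (h2 z).ge)
  rw [← hcomp, ← map_sub] at h4
  have h5 := h4.resolve_left (fun h => h3 ((map_eq_zero _).1 h))
  rw [h2] at h5
  omega

end

end Pool.Agent.W619.PQ
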