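import Pool.Agent.W619.PQ.Tr

/-! Expansion at infinity of the functions on the projective line. -/

set_option autoImplicit false
set_option linter.overlappingInstances false
set_option linter.unusedSectionVars false

open Polynomial FF IsDedekindDomain IntermediateField

namespace Pool.Agent.W619.PQ

open Pool.Agent.W603.LV

variable {k : Type*} [Field k]

/-- the Laurent series of `x` in the variable `1/x` -/
noncomputable def U : LaurentSeries k := HahnSeries.single (-1 : ℤ) (1 : k)

theorem U_pow (n : ℕ) : (U : LaurentSeries k) ^ n = HahnSeries.single (-(n : ℤ)) (1 : k) := by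
  unfold U
  rw [HahnSeries.single_pow]
  simp

/-- the expansion of a polynomial in `x` -/
noncomputable def eU : k[X] →+* LaurentSeries k :=
  Polynomial.eval₂RingHom (HahnSeries.C : k →+* HahnSeries ℤ k) U

theorem eU_monomial (n : ℕ) (a : k) :
    eU (monomial n a) = HahnSeries.single (-(n : ℤ)) a := by
  unfold eU
  rw [coe_eval₂RingHom, eval₂_monomial, U_pow, HahnSeries.C_apply, HahnSeries.single_mul_single]
  simp

theorem eU_C (a : k) : eU (C a) = HahnSeries.C a := by
  rw [← monomial_zero_left, eU_monomial]; rfl

theorem eU_X : eU (X : k[X]) = U := by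
  rw [← monomial_one_one_eq_X, eU_monomial]; rfl

theorem coeff_eU (p : k[X]) (j : ℤ) :
    (eU p).coeff j = if j ≤ 0 then p.coeff (-j).toNat else 0 := by
  induction p using Polynomial.induction_on' with
  | add p q hp hq =>
    rw [map_add, HahnSeries.coeff_add, hp, hq]
    split_ifs <;> simp
  | monomial n a =>
    rw [eU_monomial, HahnSeries.coeff_single, coeff_monomial]
    by_cases h1 : j ≤ 0
    · simp only [h1, if_true]
      by_cases h2 : j = -(n : ℤ)
      · have : n = (-j).toNat := by omega
        rw [if_pos h2, if_pos this]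
      · have : n ≠ (-j).toNat := by omega
        rw [if_neg h2, if_neg this]
    · have h2 : j ≠ -(n : ℤ) := by omega
      simp [h1, h2]

theorem eU_injective : Function.Injective (eU : k[X] →+* LaurentSeries k) := by
  intro p q h
  ext n
  have h1 := congrArg (fun s : LaurentSeries k => s.coeff (-(n : ℤ))) h
  simp only [coeff_eU] at h1
  simpa using h1

theorem exists_poly_of_coeff (s : LaurentSeries k) (hs : ∀ j : ℤ, 1 ≤ j → s.coeff j = 0) :
    ∃ p : k[X], eU p = s := by
  classical
  refine ⟨∑ i ∈ Finset.range ((-s.order).toNat + 1), monomial i (s.coeff (-(i : ℤ))), ?_⟩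
  ext j
  rw [coeff_eU]
  rcases le_or_gt j 0 with h | h
  · rw [if_pos h, finsetSum_coeff]
    simp only [coeff_monomial]
    by_cases h2 : (-j).toNat ∈ Finset.range ((-s.order).toNat + 1)
    · rw [Finset.sum_eq_single_of_mem _ h2]
      · rw [if_pos rfl]; congr 1; omega
      · intro b _ hb
        rw [if_neg hb]
    · rw [Finset.sum_eq_zero]
      · symm
        apply HahnSeries.coeff_eq_zero_of_lt_order
        rw [Finset.mem_range] at h2
        omega
      · intro i hi
        rw [if_neg]
        rintro rfl
        exact h2 hi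
  · rw [if_neg (by omega), hs j (by omega)]

theorem order_eU {p : k[X]} (hp : p ≠ 0) :
    (eU p).order = -(p.natDegree : ℤ) := by
  have h0 : (eU p) ≠ 0 := by
    intro h
    apply hp
    apply eU_injective
    rw [h, map_zero]
  apply le_antisymm
  · apply HahnSeries.order_le_of_coeff_ne_zero
    rw [coeff_eU, if_pos (by omega)]
    simpa using hp
  · by_contra hcon
    push Not at hcon
    have h1 := HahnSeries.coeff_order_eq_zero.not.2 h0
    apply h1
    rw [coeff_eU]
    rw [if_pos (by omega)]
    apply coeff_eq_zero_of_natDegree_lt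
    omega

section

variable {F : Type*} [Field F] [Algebra k F] {x : F}

/-- the expansion at infinity of the rational functions in `x` -/
noncomputable def iotaR : RatFunc k →+* LaurentSeries k :=
  RatFunc.liftRingHom eU
    (nonZeroDivisors_le_comap_nonZeroDivisors_of_injective _ eU_injective)

theorem iotaR_algebraMap (p : k[X]) :
    iotaR (algebraMap k[X] (RatFunc k) p) = eU p := by
  unfold iotaR
  rw [RatFunc.liftRingHom_algebraMap]

noncomputable def iota (hx : Transcendental k x) : k⟮x⟯ →+* LaurentSeries k :=
  iotaR.comp ((RatFunc.algEquivOfTranscendental x hx).symm : k⟮x⟯ →+* RatFunc k)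

/-- the polynomials in `x` as elements of `k(x)` -/
noncomputable def px (x : F) : k[X] →ₐ[k] k⟮x⟯ := aeval (⟨x, mem_adjoin_simple_self k x⟩ : k⟮x⟯)

theorem coe_px (p : k[X]) : ((px x p : k⟮x⟯) : F) = aeval x p := by
  unfold px
  have := Polynomial.aeval_algHom_apply (k⟮x⟯.val) (⟨x, mem_adjoin_simple_self k x⟩ : k⟮x⟯) p
  exact this.symm

theorem iota_px (hx : Transcendental k x) (p : k[X]) :
    iota hx (px x p) = eU p := by
  unfold iota
  have h1 : (RatFunc.algEquivOfTranscendental x hx).symm (px x p) =
      algebraMap k[X] (RatFunc k) p := by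
    rw [AlgEquiv.symm_apply_eq]
    apply Subtype.ext
    rw [coe_px, RatFunc.algEquivOfTranscendental_algebraMap]
    exact (coe_px p).symm
  change iotaR ((RatFunc.algEquivOfTranscendental x hx).symm (px x p)) = _
  rw [h1, iotaR_algebraMap]

theorem exists_px_div (r : k⟮x⟯) :
    ∃ p g : k[X], g ≠ 0 ∧ r * px x g = px x p := by
  obtain ⟨r, hr⟩ := r
  rw [mem_adjoin_simple_iff] at hr
  obtain ⟨p, g, h⟩ := hr
  by_cases hg : aeval x g = 0
  · refine ⟨0, 1, one_ne_zero, ?_⟩
    apply Subtype.ext
    push_cast
    rw [coe_px, coe_px, h, hg, div_zero]; simp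
  · refine ⟨p, g, ?_, ?_⟩
    · rintro rfl
      exact hg (map_zero _)
    · apply Subtype.ext
      push_cast
      rw [coe_px, coe_px, h, div_mul_cancel₀ _ hg]

theorem px_injective (hx : Transcendental k x) : Function.Injective (px x : k[X] →ₐ[k] k⟮x⟯) := by
  intro p q h
  apply transcendental_iff_injective.1 hx
  rw [← coe_px, ← coe_px, h]

end

end Pool.Agent.W619.PQ
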