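import Pool.Agent.W619.PQ.Reg

/-! A function field which is not rational has a nonzero regular differential: conclusion. -/

set_option autoImplicit false
set_option linter.overlappingInstances false
set_option linter.unusedSectionVars false

open Polynomial FF IsDedekindDomain IntermediateField

namespace Pool.Agent.W619.PQ

open Pool.Agent.W603.LV

section

variable {k F : Type*} [Field k] [Field F] [Algebra k F] [CharZero k] [IsFF k F] [IsAlgClosed k]

theorem rational_of_sup {x : F} (hx : Transcendental k x)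
    (h : BB (k := k) x ⊔ BI (k := k) x = ⊤) : ∃ t : F, k⟮t⟯ = ⊤ := by
  classical
  have hfin := IsFF.finite hx
  obtain ⟨S, hS, hS2⟩ := poles (k := k) (K := F) hx
  have hpos : 0 < Module.finrank k⟮x⟯ F := Module.finrank_pos
  obtain ⟨P, hP⟩ : S.Nonempty := by
    rw [Finset.nonempty_iff_ne_empty]
    rintro rfl
    rw [Finset.sum_empty] at hS2
    omega
  obtain ⟨π, hπ0, hπ⟩ := P.surj
  obtain ⟨y, hy1, hy2⟩ := approx_one (S.erase P) P (by simp) π⁻¹ 0
  have hy : y ∈ BB (k := k) x ⊔ BI (k := k) x := by rw [h]; trivial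
  obtain ⟨b, hb, c, hc, hbc⟩ := Submodule.mem_sup.1 hy
  have hPx := (hS P).1 hP
  -- the order of b at P
  have h1 : Ge P 0 (b - π⁻¹) := by
    have e : b - π⁻¹ = (y - π⁻¹) - c := by rw [← hbc]; ring
    rw [e]
    exact hy1.sub (hc P hPx)
  have hπi : P.ord π⁻¹ = -1 := by rw [P.ord_inv, hπ]
  have h2 : b ≠ 0 ∧ P.ord b = -1 := by
    by_cases h3 : b - π⁻¹ = 0
    · rw [sub_eq_zero.1 h3]
      exact ⟨inv_ne_zero hπ0, hπi⟩
    · have h4 := h1.resolve_left h3
      have h5 := P.ord_add_eq (f := π⁻¹) (g := b - π⁻¹) (inv_ne_zero hπ0) h3 (by omega)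
      rwa [add_sub_cancel, hπi] at h5
  have h3 : ∀ Q : Place k F, Q ≠ P → 0 ≤ Q.ord b := by
    intro Q hQ
    rcases lt_or_ge (Q.ord x) 0 with hQx | hQx
    · have e : b = y - c := by rw [← hbc]; ring
      have h4 : Ge Q 0 b := by
        rw [e]
        exact (hy2 Q (Finset.mem_erase.2 ⟨hQ, (hS Q).2 hQx⟩)).sub (hc Q hQx)
      exact h4.resolve_left h2.1
    · exact (hb Q hQx).resolve_left h2.1
  have hbt : Transcendental k b := P.transcendental_of_ord_ne (by omega)
  obtain ⟨T, hT, hT2⟩ := poles (k := k) (K := F) hbt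
  have hTP : T = {P} := by
    ext Q
    rw [hT, Finset.mem_singleton]
    constructor
    · intro h
      by_contra hne
      have := h3 Q hne
      omega
    · rintro rfl
      omega
  rw [hTP, Finset.sum_singleton, h2.2, deg_one] at hT2
  refine ⟨b, ?_⟩
  rw [← IntermediateField.finrank_eq_one_iff_eq_top, ← hT2]
  rfl

/-- A function field of one variable over an algebraically closed field of characteristic zero
which is not purely transcendental has a nonzero regular differential: there is `f ≠ 0` such that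
the differential whose value on the vector field `D` is `f` is regular everywhere. -/
theorem exists_regular (hrat : ¬ ∃ t : F, k⟮t⟯ = ⊤) {D : Derivation k F F} (hD : D ≠ 0) :
    ∃ f : F, f ≠ 0 ∧ ∀ P : Place k F, vo P D ≤ P.ord f := by
  classical
  obtain ⟨x, hx⟩ := IsFF.exists_transcendental (k := k) (K := F)
  have hDx := der_ne_zero hD hx
  have hlt : BB (k := k) x ⊔ BI (k := k) x < ⊤ :=
    lt_top_iff_ne_top.2 fun h => hrat (rational_of_sup hx h)
  obtain ⟨lam, hlam, hle⟩ := Submodule.exists_le_ker_of_lt_top _ hlt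
  have hB : ∀ y ∈ BB (k := k) x, lam y = 0 := fun y hy => hle (Submodule.mem_sup_left hy)
  have hI : ∀ y ∈ BI (k := k) x, lam y = 0 := fun y hy => hle (Submodule.mem_sup_right hy)
  obtain ⟨f, hf0, hf⟩ := exists_mult lam hI hx hB hlam
  refine ⟨f * D x, mul_ne_zero hf0 hDx, fun P => ?_⟩
  have h1 := mult_regular hx ((D x)⁻¹ • D) (by simp [hDx]) lam hI hB hf0 hf P
  rw [vo_smul P hD (inv_ne_zero hDx), P.ord_inv] at h1
  rw [P.ord_mul hf0 hDx]
  omega

end

end Pool.Agent.W619.PQ
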