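import Pool.Agent.W619.PQ.Exp

/-! From a linear functional that vanishes on `B + B_∞` to a multiplier for the trace. -/

set_option autoImplicit false
set_option linter.overlappingInstances false
set_option linter.unusedSectionVars false

open Polynomial FF IsDedekindDomain IntermediateField

namespace Pool.Agent.W619.PQ

open Pool.Agent.W603.LV

section

variable {k F : Type*} [Field k] [Field F] [Algebra k F]

/-- functions regular at all places where `x` is regular -/
def BB (x : F) : Submodule k F where
  carrier := {y | ∀ P : Place k F, 0 ≤ P.ord x → Ge P 0 y}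
  add_mem' := fun ha hb P hP => (ha P hP).add (hb P hP)
  zero_mem' := fun P _ => Ge.zero
  smul_mem' := by
    intro c y hy P hP
    rw [Algebra.smul_def]
    simpa using (Ge.const (P := P) c).mul (hy P hP)

/-- functions regular at all poles of `x` -/
def BI (x : F) : Submodule k F where
  carrier := {y | ∀ P : Place k F, P.ord x < 0 → Ge P 0 y}
  add_mem' := fun ha hb P hP => (ha P hP).add (hb P hP)
  zero_mem' := fun P _ => Ge.zero
  smul_mem' := by
    intro c y hy P hP
    rw [Algebra.smul_def]
    simpa using (Ge.const (P := P) c).mul (hy P hP)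

theorem sub_const_ne {x : F} (hx : Transcendental k x) (c : k) : x - algebraMap k F c ≠ 0 := by
  intro h
  apply hx
  rw [sub_eq_zero] at h
  rw [h]
  exact isAlgebraic_algebraMap c

/-- clearing denominators by polynomials in `x` -/
theorem clear [CharZero k] [IsAlgClosed k] [IsFF k F] {x : F} (hx : Transcendental k x) (y : F) :
    ∃ g : k[X], g ≠ 0 ∧ aeval x g * y ∈ BB (k := k) x ∧
      ∀ c : k, (∀ P : Place k F, 0 < P.ord (x - algebraMap k F c) → Ge P 0 y) → g.eval c ≠ 0 := by
  classical
  have hfin : {P : Place k F | P.ord y < 0 ∧ 0 ≤ P.ord x}.Finite :=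
    (finite_support (k := k) y).subset (fun P hP => by
      have := hP.1
      show P.ord y ≠ 0
      omega)
  set Z := hfin.toFinset with hZ
  have hmem : ∀ P, P ∈ Z ↔ P.ord y < 0 ∧ 0 ≤ P.ord x := by intro P; simp [hZ]
  have hres : ∀ P : Place k F, ∃ c : k, 0 ≤ P.ord x → Ge P 1 (x - algebraMap k F c) := by
    intro P
    by_cases h : 0 ≤ P.ord x
    · obtain ⟨c, hc⟩ := exists_const P (f := x) (Or.inr h)
      exact ⟨c, fun _ => hc⟩
    · exact ⟨0, fun h' => absurd h' h⟩
  choose c hc using hres
  set g : k[X] := ∏ P ∈ Z, (X - C (c P)) ^ (-P.ord y).toNat with hg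
  have hg0 : g ≠ 0 := by
    rw [hg, Finset.prod_ne_zero_iff]
    intro P _
    exact pow_ne_zero _ (X_sub_C_ne_zero _)
  have hag : aeval x g = ∏ P ∈ Z, (x - algebraMap k F (c P)) ^ (-P.ord y).toNat := by
    rw [hg, map_prod]
    refine Finset.prod_congr rfl fun P _ => ?_
    rw [map_pow, map_sub, aeval_X, aeval_C]
  refine ⟨g, hg0, ?_, ?_⟩
  · intro Q hQ
    have hreg : ∀ P ∈ Z, Ge Q 0 ((x - algebraMap k F (c P)) ^ (-P.ord y).toNat) := by
      intro P _
      have h1 : Ge Q 0 (x - algebraMap k F (c P)) := Ge.sub (Or.inr hQ) (Ge.const _)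
      simpa using h1.pow (-P.ord y).toNat
    by_cases hQZ : Q ∈ Z
    · have h1 : Ge Q (∑ P ∈ Z, if P = Q then (-Q.ord y) else 0) (aeval x g) := by
        rw [hag]
        apply Ge.prod
        intro P hP
        by_cases hPQ : P = Q
        · rw [if_pos hPQ, hPQ]
          have h2 := (hc Q hQ).pow (-Q.ord y).toNat
          have h3 := ((hmem Q).1 hQZ).1
          refine h2.mono ?_
          omega
        · rw [if_neg hPQ]
          exact hreg P hP
      rw [Finset.sum_ite_eq' Z Q (fun _ => -Q.ord y), if_pos hQZ] at h1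
      have h2 := h1.mul (Or.inr le_rfl : Ge Q (Q.ord y) y)
      simpa using h2
    · have h1 : Ge Q 0 y := by
        by_cases h2 : 0 ≤ Q.ord y
        · exact Or.inr h2
        · exact absurd ((hmem Q).2 ⟨by omega, hQ⟩) hQZ
      have h2 : Ge Q 0 (aeval x g) := by
        rw [hag]
        have := Ge.prod (P := Q) Z _ (fun _ => (0 : ℤ)) hreg
        simpa using this
      simpa using h2.mul h1
  · intro c' hc'
    rw [hg, eval_prod, Finset.prod_ne_zero_iff]
    intro P hP
    rw [eval_pow, eval_sub, eval_X, eval_C]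
    apply pow_ne_zero
    intro h
    have h1 : c' = c P := sub_eq_zero.1 h
    have h2 := (hmem P).1 hP
    have h3 := (hc P h2.2).resolve_left (sub_const_ne hx _)
    have h4 := hc' P (by rw [h1]; omega)
    rcases h4 with h4 | h4
    · rw [h4, P.ord_zero] at h2; omega
    · omega

variable {x : F} (lam : F →ₗ[k] k)

theorem bdd [CharZero k] [IsFF k F] (hI : ∀ y ∈ BI (k := k) x, lam y = 0) (y : F) :
    BddBelow (Function.support fun j : ℤ => lam (x ^ (j - 1) * y)) := by
  classical
  have hfin := finite_support (k := k) y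
  refine ⟨-((∑ P ∈ hfin.toFinset, (P.ord y).natAbs : ℕ) : ℤ) + 1, ?_⟩
  intro j hj
  by_contra hcon
  push Not at hcon
  apply hj
  apply hI
  intro P hP
  by_cases hy : y = 0
  · left; rw [hy, mul_zero]
  have hx0 : x ≠ 0 := by
    rintro rfl
    rw [P.ord_zero] at hP; omega
  right
  rw [P.ord_mul (zpow_ne_zero _ hx0) hy, P.ord_zpow]
  have h1 : -((∑ P ∈ hfin.toFinset, (P.ord y).natAbs : ℕ) : ℤ) ≤ P.ord y := by
    by_cases h2 : P ∈ hfin.toFinset
    · have := Finset.single_le_sum (f := fun P : Place k F => (P.ord y).natAbs)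
        (fun _ _ => Nat.zero_le _) h2
      have h3 : (P.ord y).natAbs ≤ ∑ P ∈ hfin.toFinset, (P.ord y).natAbs := this
      omega
    · have h3 : P.ord y = 0 := by
        by_contra h
        exact h2 (hfin.mem_toFinset.2 h)
      rw [h3]
      have : (0 : ℤ) ≤ ((∑ P ∈ hfin.toFinset, (P.ord y).natAbs : ℕ) : ℤ) := by positivity
      omega
  have h2 : (j - 1) * (-1) ≤ (j - 1) * P.ord x := by
    apply mul_le_mul_of_nonpos_left
    · omega
    · have : (0 : ℤ) ≤ ((∑ P ∈ hfin.toFinset, (P.ord y).natAbs : ℕ) : ℤ) := by positivity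
      omega
  omega

/-- the generating series of the values of the functional on `x ^ j y` -/
noncomputable def SS [CharZero k] [IsFF k F] (hI : ∀ y ∈ BI (k := k) x, lam y = 0) :
    F →+ HahnSeries ℤ k where
  toFun y := HahnSeries.ofSuppBddBelow (fun j : ℤ => lam (x ^ (j - 1) * y)) (bdd lam hI y)
  map_zero' := by
    ext j
    simp
  map_add' a b := by
    ext j
    simp [mul_add]

variable [CharZero k] [IsFF k F] (hI : ∀ y ∈ BI (k := k) x, lam y = 0)

theorem SS_coeff (y : F) (j : ℤ) : (SS lam hI y).coeff j = lam (x ^ (j - 1) * y) := rfl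

theorem SS_C (a : k) (y : F) : SS lam hI (algebraMap k F a * y) = HahnSeries.C a * SS lam hI y := by
  ext j
  rw [SS_coeff, HahnSeries.C_mul_eq_smul, HahnSeries.coeff_smul, SS_coeff, ← Algebra.smul_def,
    mul_smul_comm, map_smul]

theorem SS_X (hx0 : x ≠ 0) (y : F) : SS lam hI (x * y) = U * SS lam hI y := by
  ext j
  have h := HahnSeries.coeff_single_mul_add (r := (1 : k)) (x := SS lam hI y) (a := j + 1) (b := (-1 : ℤ))
  rw [show j + 1 + (-1 : ℤ) = j by ring] at h
  unfold U
  rw [h, SS_coeff, SS_coeff, one_mul, ← mul_assoc, ← zpow_add_one₀ hx0]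
  congr 2
  ring_nf

theorem SS_poly (hx0 : x ≠ 0) (p : k[X]) : ∀ y : F,
    SS lam hI (aeval x p * y) = eU p * SS lam hI y := by
  induction p using Polynomial.induction_on' with
  | add p q hp hq =>
    intro y
    rw [map_add, map_add, add_mul, add_mul, map_add, hp, hq]
  | monomial n a =>
    induction n generalizing a with
    | zero =>
      intro y
      rw [monomial_zero_left, aeval_C, eU_C, SS_C]
    | succ n ih =>
      intro y
      rw [← monomial_mul_X, map_mul (aeval x), map_mul eU, aeval_X, eU_X, mul_assoc, ih,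
        SS_X lam hI hx0, mul_assoc]

end

end Pool.Agent.W619.PQ
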