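import Pool.Agent.W619.PQ.Lam

/-! The multiplier attached to a linear functional that vanishes on `B + B_∞`. -/

set_option autoImplicit false
set_option linter.overlappingInstances false
set_option linter.unusedSectionVars false

open Polynomial FF IsDedekindDomain IntermediateField

namespace Pool.Agent.W619.PQ

open Pool.Agent.W603.LV

section

variable {k F : Type*} [Field k] [Field F] [Algebra k F] {x : F} (lam : F →ₗ[k] k)
  [CharZero k] [IsFF k F] (hI : ∀ y ∈ BI (k := k) x, lam y = 0)

theorem BB_mul_pow {y : F} (hy : y ∈ BB (k := k) x) (n : ℕ) : x ^ n * y ∈ BB (k := k) x := by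
  intro P hP
  have h0 : Ge P 0 x := Or.inr hP
  have h1 : Ge P 0 (x ^ n) := by simpa using h0.pow n
  simpa using h1.mul (hy P hP)

theorem SS_of_BB (hB : ∀ y ∈ BB (k := k) x, lam y = 0) {y : F} (hy : y ∈ BB (k := k) x) :
    ∃ p : k[X], eU p = SS lam hI y := by
  apply exists_poly_of_coeff
  intro j hj
  rw [SS_coeff]
  apply hB
  obtain ⟨n, hn⟩ := Int.eq_ofNat_of_zero_le (show 0 ≤ j - 1 by omega)
  rw [hn, zpow_natCast]
  exact BB_mul_pow hy n

variable [IsAlgClosed k]

theorem iota_injective (hx : Transcendental k x) : Function.Injective (iota hx) := (iota hx).injective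

theorem eU_ne {g : k[X]} (hg : g ≠ 0) : eU g ≠ 0 := by
  intro h
  apply hg
  apply eU_injective
  rw [h, map_zero]

theorem SS_mem (hx : Transcendental k x) (hB : ∀ y ∈ BB (k := k) x, lam y = 0) (y : F) :
    ∃ r : k⟮x⟯, iota hx r = SS lam hI y := by
  have hx0 : x ≠ 0 := by
    rintro rfl
    exact hx isAlgebraic_zero
  obtain ⟨g, hg, hgy, -⟩ := clear hx y
  obtain ⟨p, hp⟩ := SS_of_BB lam hI hB hgy
  rw [SS_poly lam hI hx0] at hp
  refine ⟨px x p / px x g, ?_⟩
  rw [map_div₀, iota_px, iota_px, hp, mul_div_cancel_left₀ _ (eU_ne hg)]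

theorem SS_smul (hx : Transcendental k x) (r : k⟮x⟯) (y : F) :
    SS lam hI ((r : F) * y) = iota hx r * SS lam hI y := by
  have hx0 : x ≠ 0 := by
    rintro rfl
    exact hx isAlgebraic_zero
  obtain ⟨p, g, hg, h⟩ := exists_px_div r
  have h1 : (r : F) * aeval x g = aeval x p := by
    have := congrArg (Subtype.val : k⟮x⟯ → F) h
    rw [← coe_px, ← coe_px]
    exact this
  have h2 := SS_poly lam hI hx0 g ((r : F) * y)
  rw [← mul_assoc, mul_comm (aeval x g), h1, SS_poly lam hI hx0] at h2
  have h3 := congrArg (iota hx) h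
  rw [map_mul, iota_px, iota_px] at h3
  apply mul_left_cancel₀ (eU_ne hg)
  rw [← h2, ← h3]; ring

/-- The functional is the coefficient functional of the trace form with a fixed multiplier. -/
theorem exists_mult (hx : Transcendental k x) (hB : ∀ y ∈ BB (k := k) x, lam y = 0)
    (hne : lam ≠ 0) :
    ∃ f : F, f ≠ 0 ∧ ∀ y, iota hx (Algebra.trace k⟮x⟯ F (f * y)) = SS lam hI y := by
  classical
  choose T hT using SS_mem lam hI hx hB
  let T' : F →ₗ[k⟮x⟯] k⟮x⟯ :=
    { toFun := T
      map_add' := by
        intro a b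
        apply iota_injective hx
        rw [map_add, hT, hT, hT, map_add]
      map_smul' := by
        intro r y
        apply iota_injective hx
        rw [hT, RingHom.id_apply, smul_eq_mul, map_mul, hT]
        exact SS_smul lam hI hx r y }
  have hfin := IsFF.finite hx
  have hchar : CharZero k⟮x⟯ := charZero_of_injective_algebraMap (algebraMap k k⟮x⟯).injective
  have hsep : Algebra.IsSeparable k⟮x⟯ F := inferInstance
  have hnd := traceForm_nondegenerate k⟮x⟯ F
  obtain ⟨f, hf⟩ := (LinearMap.BilinForm.toDual (Algebra.traceForm k⟮x⟯ F) hnd).surjective T'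
  have hf' : ∀ y, Algebra.trace k⟮x⟯ F (f * y) = T y := by
    intro y
    have := congrArg (fun φ : Module.Dual k⟮x⟯ F => φ y) hf
    have h2 : Algebra.trace k⟮x⟯ F (f * y) = T' y := by
      simpa [LinearMap.BilinForm.toDual_def, Algebra.traceForm_apply] using this
    exact h2
  refine ⟨f, ?_, fun y => by rw [hf', hT]⟩
  rintro rfl
  apply hne
  ext y
  have h1 := hf' y
  rw [zero_mul, map_zero] at h1
  have h2 := hT y
  rw [← h1, map_zero] at h2
  have h3 := congrArg (fun s : HahnSeries ℤ k => s.coeff 1) h2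
  simp only [SS_coeff, HahnSeries.coeff_zero, sub_self, zpow_zero, one_mul] at h3
  rw [← h3]; rfl

end

end Pool.Agent.W619.PQ
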