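import Pool.Agent.W619.PQ.Core
import Pool.Agent.W619.PQ.Genus

/-! The norm of a regular differential to the quotient by a finite group. -/

set_option autoImplicit false
set_option linter.overlappingInstances false
set_option linter.unusedSectionVars false

open Polynomial FF IntermediateField

namespace Pool.Agent.W619.PQ

open Pool.Agent.W603.LV

section

variable {k : Type*} [Field k] [CharZero k] [IsAlgClosed k]
  {E0 E : Type*} [Field E0] [Field E] [Algebra k E0] [Algebra k E] [Algebra E0 E]
  [IsScalarTower k E0 E] [IsFF k E0] [IsFF k E]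

/-- conjugation of a derivation by an automorphism -/
noncomputable def conjDer (g : E ≃ₐ[k] E) (D : Derivation k E E) : Derivation k E E :=
  Derivation.mk' ((g.toLinearMap.comp (D : E →ₗ[k] E)).comp g.symm.toLinearMap) (by
    intro a b
    simp only [LinearMap.comp_apply, AlgEquiv.toLinearMap_apply, map_mul, Derivation.coeFn_coe,
      Derivation.leibniz, smul_eq_mul, map_add, AlgEquiv.apply_symm_apply])

theorem conjDer_apply (g : E ≃ₐ[k] E) (D : Derivation k E E) (z : E) :
    conjDer g D z = g (D (g.symm z)) := rfl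

theorem transcendental_map {t : E0} (ht : Transcendental k t) : Transcendental k (algebraMap E0 E t) := by
  intro h
  exact ht ((isAlgebraic_algebraMap_iff (algebraMap E0 E).injective).1 h)

/-- every derivation of the subfield extends -/
theorem exists_ext (D0 : Derivation k E0 E0) (hD0 : D0 ≠ 0) :
    ∃ D : Derivation k E E, D ≠ 0 ∧ ∀ z : E0, D (algebraMap E0 E z) = algebraMap E0 E (D0 z) := by
  obtain ⟨t, ht⟩ := IsFF.exists_transcendental (k := k) (K := E0)
  have htE := transcendental_map (E := E) ht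
  have h1 := der_ne (k := k) (K := E)
  have h2 := der_ne_zero h1 htE
  have h3 := der_ne_zero hD0 ht
  refine ⟨(algebraMap E0 E (D0 t) / der k E (algebraMap E0 E t)) • der k E, ?_, ?_⟩
  · intro h
    have := congrArg (fun D : Derivation k E E => D (algebraMap E0 E t)) h
    simp only [Derivation.coe_smul, Pi.smul_apply, smul_eq_mul, Derivation.coe_zero,
      Pi.zero_apply, div_mul_cancel₀ _ h2] at this
    rw [map_eq_zero] at this
    exact h3 this
  · intro z
    obtain ⟨r, hr1, hr2⟩ := ratio' (K := E) ht z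
    rw [Derivation.coe_smul, Pi.smul_apply, smul_eq_mul, hr2, hr1, map_mul]
    field_simp

theorem der_ext {t : E} (ht : Transcendental k t) {D D' : Derivation k E E} (h : D t = D' t)
    (f : E) : D f = D' f := by
  obtain ⟨c, hc⟩ := ratio ht f
  rw [hc, hc, h]

theorem vo_over {w : Place k E} {q : Place k E0} {e : ℕ} (h : Over w q e)
    {D0 : Derivation k E0 E0} (hD0 : D0 ≠ 0) {D : Derivation k E E} (hD : D ≠ 0)
    (hext : ∀ z : E0, D (algebraMap E0 E z) = algebraMap E0 E (D0 z)) :
    vo w D = e * vo q D0 - e + 1 := by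
  obtain ⟨s, hs0, hs⟩ := q.surj
  have he := h.1
  have h1 := h.2 s
  rw [hs] at h1
  have h2 := (ord_der w hD (f := algebraMap E0 E s) (by rw [h1]; omega)).2
  rw [hext, h.2, vo_eq q hs hD0, h1] at h2
  omega

theorem vo_comp (w : Place k E) (g : E ≃ₐ[k] E) {D : Derivation k E E} (hD : D ≠ 0)
    (hg : ∀ z, g (D z) = D (g z)) : vo (w.comp g) D = vo w D := by
  have h1 : (w.comp g).ord (unif (w.comp g)) = 1 := ord_unif _
  rw [Place.comp_ord] at h1
  rw [← vo_eq w h1 hD, ← hg]
  rfl

/-- The norm of a regular differential. -/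
theorem exists_norm {H : Type*} [Group H] [Finite H] (ρ : H →* (E ≃ₐ[k] E))
    (hfix : ∀ (h : H) (z : E0), ρ h (algebraMap E0 E z) = algebraMap E0 E z)
    (hinv : ∀ z : E, (∀ h, ρ h z = z) → ∃ z0, algebraMap E0 E z0 = z)
    (hrat : ¬ ∃ t : E, k⟮t⟯ = ⊤) {D0 : Derivation k E0 E0} (hD0 : D0 ≠ 0) :
    ∃ c : E0, c ≠ 0 ∧ ∀ (q : Place k E0) (w : Place k E) (e : ℕ), Over w q e →
      (Nat.card H : ℤ) ≤ e * (q.ord c + Nat.card H * (1 - vo q D0)) := by
  classical
  obtain ⟨D, hD, hext⟩ := exists_ext (E := E) D0 hD0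
  obtain ⟨t, ht⟩ := IsFF.exists_transcendental (k := k) (K := E0)
  have htE := transcendental_map (E := E) ht
  have hcomm : ∀ (h : H) (z : E), ρ h (D z) = D (ρ h z) := by
    intro h z
    have h1 : conjDer (ρ h) D (algebraMap E0 E t) = D (algebraMap E0 E t) := by
      rw [conjDer_apply]
      have h2 : (ρ h).symm (algebraMap E0 E t) = algebraMap E0 E t := by
        rw [AlgEquiv.symm_apply_eq, hfix]
      rw [h2, hext, hfix]
    have h2 := der_ext htE h1 (ρ h z)
    rw [conjDer_apply, AlgEquiv.symm_apply_apply] at h2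
    exact h2
  obtain ⟨f, hf0, hf⟩ := exists_regular hrat hD
  have hFin : Fintype H := Fintype.ofFinite H
  obtain ⟨c, hc⟩ := hinv (∏ h : H, ρ h f) (by
    intro g
    rw [map_prod]
    refine Fintype.prod_equiv (Equiv.mulLeft g) _ _ fun h => ?_
    simp only [Equiv.coe_mulLeft, map_mul]
    rfl)
  have hN0 : ∏ h : H, ρ h f ≠ 0 := Finset.prod_ne_zero_iff.2 fun h _ => by simpa using hf0
  have hc0 : c ≠ 0 := by
    rintro rfl
    rw [map_zero] at hc
    exact hN0 hc.symm
  refine ⟨c, hc0, fun q w e hwe => ?_⟩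
  have h1 : (Nat.card H : ℤ) * vo w D ≤ w.ord (∏ h : H, ρ h f) := by
    rw [ord_prod _ _ _ fun h _ => by simpa using hf0]
    have h2 : ∀ h ∈ (Finset.univ : Finset H), vo w D ≤ w.ord (ρ h f) := by
      intro h _
      have h3 := hf (w.comp (ρ h))
      rw [vo_comp w (ρ h) hD (hcomm h), Place.comp_ord] at h3
      exact h3
    have h3 := Finset.card_nsmul_le_sum _ _ _ h2
    rw [Finset.card_univ, ← Nat.card_eq_fintype_card, nsmul_eq_mul] at h3
    exact_mod_cast h3
  rw [← hc, hwe.2, vo_over hwe hD0 hD hext] at h1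
  nlinarith [h1]

end

end Pool.Agent.W619.PQ
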