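import Pool.Agent.W619.PQ.Norm

/-! Pluricanonical forms with controlled poles on a rational curve. -/

set_option autoImplicit false
set_option linter.overlappingInstances false
set_option linter.unusedSectionVars false

open Polynomial FF IntermediateField

namespace Pool.Agent.W619.PQ

open Pool.Agent.W603.LV

section

variable {k : Type*} [Field k] [CharZero k] [IsAlgClosed k]
  {E : Type*} [Field E] [Algebra k E] [IsFF k E]

theorem transcendental_of_top {x : E} (hx : k⟮x⟯ = ⊤) : Transcendental k x := by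
  intro h
  obtain ⟨t, ht⟩ := IsFF.exists_transcendental (k := k) (K := E)
  apply ht
  have h1 : t ∈ k⟮x⟯ := by rw [hx]; trivial
  have h2 : Algebra.IsAlgebraic k k⟮x⟯ := IntermediateField.isAlgebraic_adjoin_simple h.isIntegral
  have h3 := h2.isAlgebraic ⟨t, h1⟩
  exact h3.algebraMap (A := E)

theorem top_sub {x : E} (hx : k⟮x⟯ = ⊤) (a : k) : k⟮x - algebraMap k E a⟯ = ⊤ := by
  rw [eq_top_iff, ← hx, adjoin_simple_le_iff]
  have h1 := mem_adjoin_simple_self k (x - algebraMap k E a)
  have h2 := add_mem h1 (_root_.algebraMap_mem k⟮x - algebraMap k E a⟯ a)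
  rwa [sub_add_cancel] at h2

/-- zeros of a generator -/
theorem zero_unique {x : E} (hx : k⟮x⟯ = ⊤) : ∃ P : Place k E, P.ord x = 1 ∧
    ∀ Q : Place k E, 0 < Q.ord x → Q = P := by
  classical
  have ht := transcendental_of_top hx
  obtain ⟨S, hS, -, hsum⟩ := zeros (k := k) (K := E) ht
  rw [hx, IntermediateField.finrank_top] at hsum
  have h1 : ∀ w ∈ S, 1 ≤ (w.ord x).toNat * w.deg := by
    intro w hw
    have := (hS w).1 hw
    rw [deg_one]
    omega
  have hne : S.Nonempty := by
    rw [Finset.nonempty_iff_ne_empty]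
    rintro rfl
    simp at hsum
  obtain ⟨P, hP⟩ := hne
  have h2 : (P.ord x).toNat * P.deg ≤ 1 := by
    rw [← hsum]
    exact Finset.single_le_sum (f := fun w : Place k E => (w.ord x).toNat * w.deg)
      (fun _ _ => Nat.zero_le _) hP
  refine ⟨P, ?_, ?_⟩
  · have h3 := h1 P hP
    rw [deg_one] at h2 h3
    omega
  · intro Q hQ
    by_contra hne
    have h3 : ({P, Q} : Finset (Place k E)) ⊆ S := by
      intro w hw
      simp only [Finset.mem_insert, Finset.mem_singleton] at hw
      rcases hw with rfl | rfl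
      · exact hP
      · exact (hS _).2 hQ
    have h4 := Finset.sum_le_sum_of_subset (f := fun w : Place k E => (w.ord x).toNat * w.deg) h3
    rw [Finset.sum_pair (fun h => hne h.symm), hsum] at h4
    have h5 := h1 P hP
    have h6 := h1 Q ((hS _).2 hQ)
    omega

/-- the pole of a generator -/
theorem pole_unique {x : E} (hx : k⟮x⟯ = ⊤) : ∃ P : Place k E, P.ord x = -1 ∧
    ∀ Q : Place k E, Q.ord x < 0 → Q = P := by
  have h1 : k⟮x⁻¹⟯ = ⊤ := by rw [adjoin_inv, hx]
  obtain ⟨P, hP, hP2⟩ := zero_unique h1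
  refine ⟨P, ?_, fun Q hQ => hP2 Q ?_⟩
  · rw [P.ord_inv] at hP; omega
  · rw [Q.ord_inv]; omega

/-- The derivation `d/dx`. -/
theorem exists_ddx {x : E} (hx : Transcendental k x) :
    ∃ D : Derivation k E E, D ≠ 0 ∧ D x = 1 := by
  have h1 := der_ne (k := k) (K := E)
  have h2 := der_ne_zero h1 hx
  refine ⟨(der k E x)⁻¹ • der k E, ?_, ?_⟩
  · simp [h2, h1]
  · simp [h2]

theorem vo_finite_place {x : E} (hx : k⟮x⟯ = ⊤) {D : Derivation k E E} (hD : D ≠ 0) (hDx : D x = 1)
    (Q : Place k E) (hQ : 0 ≤ Q.ord x) :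
    vo Q D = 0 ∧ ∃ a : k, Q.ord (x - algebraMap k E a) = 1 ∧
      ∀ Q' : Place k E, 0 < Q'.ord (x - algebraMap k E a) → Q' = Q := by
  have ht := transcendental_of_top hx
  obtain ⟨a, ha⟩ := exists_const Q (f := x) (Or.inr hQ)
  have h0 := sub_const_ne ht a
  have h1 := ha.resolve_left h0
  obtain ⟨P, hP, hP2⟩ := zero_unique (top_sub hx a)
  have h2 : Q = P := hP2 Q (by omega)
  subst h2
  refine ⟨?_, a, hP, hP2⟩
  have h3 := (ord_der Q hD (f := x - algebraMap k E a) (by omega)).2
  rw [map_sub, hDx, Derivation.map_algebraMap, sub_zero, Q.ord_one, hP] at h3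
  omega

theorem vo_infinite_place {x : E} {D : Derivation k E E} (hD : D ≠ 0)
    (hDx : D x = 1) (Q : Place k E) (hQ : Q.ord x = -1) : vo Q D = 2 := by
  have h3 := (ord_der Q hD (f := x) (by omega)).2
  rw [hDx, Q.ord_one, hQ] at h3
  omega

/-- A pluricanonical form on the projective line with prescribed poles. -/
theorem exists_form {x : E} (hx : k⟮x⟯ = ⊤) (S : Finset (Place k E)) (ν : Place k E → ℕ)
    (hν : ∀ q ∈ S, 1 ≤ ν q) (hsum : (2 : ℚ) ≤ ∑ q ∈ S, (1 - 1 / (ν q : ℚ))) :
    ∃ (m : ℕ) (D : Derivation k E E) (c : E), 1 ≤ m ∧ D ≠ 0 ∧ c ≠ 0 ∧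
      ∀ q : Place k E, (q ∈ S ∧ (m : ℤ) ≤ ν q * (q.ord c + m * (1 - vo q D))) ∨
        (m : ℤ) ≤ q.ord c + m * (1 - vo q D) := by
  classical
  have ht := transcendental_of_top hx
  obtain ⟨D, hD, hDx⟩ := exists_ddx ht
  obtain ⟨P, hP, hP2⟩ := pole_unique hx
  have hfinpl : ∀ Q : Place k E, Q ≠ P → 0 ≤ Q.ord x := by
    intro Q hQ
    by_contra hcon
    exact hQ (hP2 Q (by omega))
  -- exponents
  set m : ℕ := ∏ q ∈ S, ν q with hm
  have hm1 : 1 ≤ m := Nat.one_le_iff_ne_zero.2 (Finset.prod_ne_zero_iff.2 fun q hq => by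
    have := hν q hq
    omega)
  have hdvd : ∀ q ∈ S, ν q ∣ m := fun q hq => Finset.dvd_prod_of_mem _ hq
  -- m - m / ν
  let r : Place k E → ℤ := fun q => m - (m / ν q : ℕ)
  have hr : ∀ q ∈ S, (ν q : ℤ) * (m - r q) = m := by
    intro q hq
    have h1 : ν q * (m / ν q) = m := Nat.mul_div_cancel' (hdvd q hq)
    simp only [r]
    have h2 : (ν q : ℤ) * ((m / ν q : ℕ) : ℤ) = m := by exact_mod_cast h1
    linarith
  have hrQ : ∀ q ∈ S, (r q : ℚ) = m * (1 - 1 / (ν q : ℚ)) := by
    intro q hq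
    have h1 := hr q hq
    have h2 : (ν q : ℚ) ≠ 0 := by
      have := hν q hq
      exact_mod_cast (by omega : ν q ≠ 0)
    have h3 : (ν q : ℚ) * ((m : ℚ) - r q) = m := by exact_mod_cast h1
    field_simp
    linarith
  have hsumr : 2 * (m : ℤ) ≤ ∑ q ∈ S, r q := by
    have h1 : ((∑ q ∈ S, r q : ℤ) : ℚ) = m * ∑ q ∈ S, (1 - 1 / (ν q : ℚ)) := by
      rw [Int.cast_sum, Finset.mul_sum]
      exact Finset.sum_congr rfl hrQ
    have h2 : (2 : ℚ) * m ≤ ((∑ q ∈ S, r q : ℤ) : ℚ) := by
      rw [h1]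
      have : (0 : ℚ) ≤ m := by positivity
      nlinarith
    exact_mod_cast h2
  -- coordinates of the finite places
  have ha : ∀ Q : Place k E, ∃ a : k, Q ≠ P → Q.ord (x - algebraMap k E a) = 1 ∧
      ∀ Q' : Place k E, 0 < Q'.ord (x - algebraMap k E a) → Q' = Q := by
    intro Q
    by_cases hQ : Q = P
    · exact ⟨0, fun h => absurd hQ h⟩
    · obtain ⟨-, a, ha⟩ := vo_finite_place hx hD hDx Q (hfinpl Q hQ)
      exact ⟨a, fun _ => ha⟩
  choose a ha using ha
  set c : E := ∏ q ∈ S.erase P, (x - algebraMap k E (a q)) ^ (-(r q)) with hc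
  have hne : ∀ q, (x - algebraMap k E (a q)) ≠ 0 := fun q => sub_const_ne ht _
  have hc0 : c ≠ 0 := Finset.prod_ne_zero_iff.2 fun q _ => zpow_ne_zero _ (hne q)
  have hordc : ∀ Q : Place k E, Q.ord c =
      ∑ q ∈ S.erase P, -(r q) * Q.ord (x - algebraMap k E (a q)) := by
    intro Q
    rw [hc, ord_prod _ _ _ fun q _ => zpow_ne_zero _ (hne q)]
    exact Finset.sum_congr rfl fun q _ => Q.ord_zpow _ _
  refine ⟨m, D, c, hm1, hD, hc0, fun Q => ?_⟩
  by_cases hQP : Q = P
  · subst hQP
    have h1 : ∀ b : k, Q.ord (x - algebraMap k E b) = -1 := by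
      intro b
      have hx0 : x ≠ 0 := by
        rintro rfl
        rw [Q.ord_zero] at hP; omega
      by_cases hb : b = 0
      · rw [hb, map_zero, sub_zero, hP]
      · have h2 : Q.ord (-(algebraMap k E b)) = 0 := by rw [Q.ord_neg, Q.ord_const hb]
        have h3 := Q.ord_add_eq (f := x) (g := -(algebraMap k E b)) hx0
          (by simpa using hb) (by omega)
        rw [← sub_eq_add_neg, hP] at h3
        exact h3.2
    have h2 : Q.ord c = ∑ q ∈ S.erase Q, r q := by
      rw [hordc]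
      refine Finset.sum_congr rfl fun q _ => ?_
      rw [h1]; ring
    rw [vo_infinite_place hD hDx Q hP, h2]
    by_cases hQS : Q ∈ S
    · left
      refine ⟨hQS, ?_⟩
      have h3 := Finset.add_sum_erase S r hQS
      have h4 : (m : ℤ) - r Q ≤ ∑ q ∈ S.erase Q, r q + m * (1 - 2) := by linarith
      calc (m : ℤ) = ν Q * (m - r Q) := (hr Q hQS).symm
        _ ≤ _ := by
          apply mul_le_mul_of_nonneg_left h4
          positivity
    · right
      rw [Finset.erase_eq_of_notMem hQS]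
      linarith
  · have h1 := (vo_finite_place hx hD hDx Q (hfinpl Q hQP)).1
    rw [h1]
    have h2 : ∀ q ∈ S.erase P, q ≠ Q → Q.ord (x - algebraMap k E (a q)) = 0 := by
      intro q hq hqQ
      have h3 : 0 ≤ Q.ord (x - algebraMap k E (a q)) := by
        have h4 : Ge Q 0 (x - algebraMap k E (a q)) :=
          Ge.sub (Or.inr (hfinpl Q hQP)) (Ge.const _)
        exact h4.resolve_left (hne q)
      by_contra h5
      have h6 := (ha q (Finset.ne_of_mem_erase hq)).2 Q (by omega)
      exact hqQ h6.symm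
    by_cases hQS : Q ∈ S
    · left
      refine ⟨hQS, ?_⟩
      have h3 : Q.ord c = -(r Q) := by
        rw [hordc, Finset.sum_eq_single_of_mem Q (Finset.mem_erase.2 ⟨hQP, hQS⟩)]
        · rw [(ha Q hQP).1]; ring
        · intro q hq hqQ
          rw [h2 q hq hqQ, mul_zero]
      rw [h3]
      have h4 := hr Q hQS
      nlinarith
    · right
      have h3 : Q.ord c = 0 := by
        rw [hordc]
        apply Finset.sum_eq_zero
        intro q hq
        rw [h2 q hq, mul_zero]
        rintro rfl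
        exact hQS (Finset.mem_of_mem_erase hq)
      rw [h3]
      simp

end

/-- The arithmetic of the hyperbolic signatures. -/
theorem six {ι : Type*} (S : Finset ι) (r : ι → ℕ) (hr : ∀ i ∈ S, 2 ≤ r i)
    (h : (2 : ℚ) ≤ ∑ i ∈ S, (1 - 1 / (r i : ℚ))) :
    (2 : ℚ) ≤ ∑ i ∈ S, (1 - 1 / ((min (r i) 6 : ℕ) : ℚ)) := by
  classical
  have hlow : ∀ i ∈ S, (1 / 2 : ℚ) ≤ 1 - 1 / ((min (r i) 6 : ℕ) : ℚ) := by
    intro i hi
    have h1 : 2 ≤ min (r i) 6 := le_min (hr i hi) (by norm_num)
    have h2 : (2 : ℚ) ≤ ((min (r i) 6 : ℕ) : ℚ) := by exact_mod_cast h1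
    have h3 : 1 / ((min (r i) 6 : ℕ) : ℚ) ≤ 1 / 2 := one_div_le_one_div_of_le (by norm_num) h2
    linarith
  have hlt : ∀ i ∈ S, 1 - 1 / (r i : ℚ) < 1 := by
    intro i hi
    have h1 := hr i hi
    have h2 : (0 : ℚ) < r i := by exact_mod_cast (by omega : 0 < r i)
    have : 0 < 1 / (r i : ℚ) := by positivity
    linarith
  rcases le_or_gt 4 S.card with hc | hc
  · have h1 := Finset.card_nsmul_le_sum S _ (1 / 2 : ℚ) hlow
    rw [nsmul_eq_mul] at h1
    have h2 : (4 : ℚ) ≤ S.card := by exact_mod_cast hc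
    linarith
  -- at least three points
  have hc3 : S.card = 3 := by
    by_contra hne
    have h1 : ∑ i ∈ S, (1 - 1 / (r i : ℚ)) ≤ S.card := by
      have := Finset.sum_le_card_nsmul S (fun i => 1 - 1 / (r i : ℚ)) 1 fun i hi => (hlt i hi).le
      simpa using this
    have h2 : S.card = 2 := by
      have h3 : (2 : ℚ) ≤ S.card := le_trans h h1
      have h4 : 2 ≤ S.card := by exact_mod_cast h3
      omega
    have hne : S.Nonempty := by
      rw [← Finset.card_pos]; omega
    have h3 := Finset.sum_lt_sum_of_nonempty hne hlt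
    have h4 : ∑ i ∈ S, (1 : ℚ) = 2 := by rw [Finset.sum_const, h2]; norm_num
    linarith
  obtain ⟨a, b, c, hab, hac, hbc, rfl⟩ := Finset.card_eq_three.1 hc3
  have hsum : ∀ f : ι → ℚ, ∑ i ∈ ({a, b, c} : Finset ι), f i = f a + f b + f c := by
    intro f
    rw [Finset.sum_insert (by simp [hab, hac]), Finset.sum_insert (by simp [hbc]),
      Finset.sum_singleton]
    ring
  rw [hsum] at h ⊢
  have ha := hr a (by simp)
  have hb := hr b (by simp)
  have hc := hr c (by simp)
  generalize r a = A at *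
  generalize r b = B at *
  generalize r c = C at *
  clear hlow hlt hsum hr hc3
  -- reduce to an inequality about the reciprocals
  have key : ∀ A B C : ℕ, 2 ≤ A → A ≤ B → B ≤ C →
      (2 : ℚ) ≤ (1 - 1 / (A : ℚ)) + (1 - 1 / (B : ℚ)) + (1 - 1 / (C : ℚ)) →
      (2 : ℚ) ≤ (1 - 1 / ((min A 6 : ℕ) : ℚ)) + (1 - 1 / ((min B 6 : ℕ) : ℚ)) +
        (1 - 1 / ((min C 6 : ℕ) : ℚ)) := by
    intro A B C hA hAB hBC h
    have hApos : (0 : ℚ) < A := by exact_mod_cast (by omega : 0 < A)
    have hBpos : (0 : ℚ) < B := by exact_mod_cast (by omega : 0 < B)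
    have hCpos : (0 : ℚ) < C := by exact_mod_cast (by omega : 0 < C)
    have hCp : 0 < 1 / (C : ℚ) := by positivity
    rcases lt_or_ge C 7 with hC | hC
    · -- all at most six
      rw [min_eq_left (by omega), min_eq_left (by omega), min_eq_left (by omega)]
      exact h
    · rw [min_eq_right (by omega : 6 ≤ C)]
      -- A, B
      rcases Nat.lt_or_ge A 3 with hA2 | hA3
      · have hA' : A = 2 := by omega
        subst hA'
        have hB3 : 3 ≤ B := by
          by_contra hcon
          have hB' : B = 2 := by omega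
          subst hB'
          have hCp' : 0 < (C : ℚ)⁻¹ := by positivity
          norm_num at h
          linarith
        have h3 : (3 : ℚ) ≤ ((min B 6 : ℕ) : ℚ) := by exact_mod_cast le_min hB3 (by norm_num)
        have h4 : 1 / ((min B 6 : ℕ) : ℚ) ≤ 1 / 3 := one_div_le_one_div_of_le (by norm_num) h3
        norm_num at h4 ⊢
        linarith
      · have h3 : (3 : ℚ) ≤ ((min B 6 : ℕ) : ℚ) := by
          exact_mod_cast le_min (by omega : 3 ≤ B) (by norm_num)
        have h4 : 1 / ((min B 6 : ℕ) : ℚ) ≤ 1 / 3 := one_div_le_one_div_of_le (by norm_num) h3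
        have h5 : (3 : ℚ) ≤ ((min A 6 : ℕ) : ℚ) := by
          exact_mod_cast le_min (by omega : 3 ≤ A) (by norm_num)
        have h6 : 1 / ((min A 6 : ℕ) : ℚ) ≤ 1 / 3 := one_div_le_one_div_of_le (by norm_num) h5
        norm_num at h4 h6 ⊢
        linarith
  rcases le_total A B with h1 | h1 <;> rcases le_total B C with h2 | h2 <;>
    rcases le_total A C with h3 | h3
  · exact key A B C ha h1 h2 h
  · exact key A B C ha h1 h2 h
  · have := key A C B ha h3 h2 (by linarith); linarith
  · have := key C A B hc h3 h1 (by linarith); linarith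
  · have := key B A C hb h1 h3 (by linarith); linarith
  · have := key B C A hb h2 h3 (by linarith); linarith
  · have := key C B A hc h2 h1 (by linarith); linarith
  · have := key C B A hc h2 h1 (by linarith); linarith

end Pool.Agent.W619.PQ
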