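import Pool.Agent.W619.PQ.Mult

/-! A function field which is not rational has a nonzero regular differential. -/

set_option autoImplicit false
set_option linter.overlappingInstances false
set_option linter.unusedSectionVars false

open Polynomial FF IsDedekindDomain IntermediateField

namespace Pool.Agent.W619.PQ

open Pool.Agent.W603.LV

section

variable {k K F : Type*} [Field k] [Field K] [Field F] [Algebra k K] [Algebra k F] [Algebra K F]
  [IsScalarTower k K F]

theorem le_sum_natAbs (Z : Finset (Place k F)) (y : F) {w : Place k F} (hw : w ∈ Z) :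
    ((w.ord y).natAbs : ℤ) ≤ ∑ w ∈ Z, ((w.ord y).natAbs : ℤ) := by
  exact Finset.single_le_sum (f := fun w : Place k F => ((w.ord y).natAbs : ℤ))
    (fun _ _ => by positivity) hw

theorem exists_contra [CharZero k] [FiniteDimensional K F] (q : Place k K) (P : Place k F) (e0 : ℕ)
    (hP : Over P q e0) (Z : Finset (Place k F))
    (hZ : ∀ (w : Place k F) (e : ℕ), Over w q e → w ∈ Z) (h : F) (hh0 : h ≠ 0)
    (hh : P.ord h ≤ 0) :
    ∃ b : F, (∀ w ∈ Z, Ge w 0 b) ∧ ¬ Ge q 1 (Algebra.trace K F (h * b)) := by
  classical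
  obtain ⟨t, ht0, ht⟩ := q.surj
  set M : ℤ := ∑ w ∈ Z, ((w.ord (algebraMap K F t)).natAbs : ℤ) with hM
  set M' : ℤ := ∑ w ∈ Z, ((w.ord h).natAbs : ℤ) with hM'
  have hM0 : 0 ≤ M := Finset.sum_nonneg fun _ _ => by positivity
  have hM0' : 0 ≤ M' := Finset.sum_nonneg fun _ _ => by positivity
  have hPZ : P ∈ Z := hZ P e0 hP
  obtain ⟨b, hb1, hb2⟩ := approx_one (Z.erase P) P (by simp) h⁻¹ (M + M' + 1)
  have hPh := le_sum_natAbs Z h hPZ
  -- values of `h b`
  have h1 : Ge P (M + 1) (h * b - 1) := by
    have e : h * b - 1 = h * (b - h⁻¹) := by field_simp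
    rw [e]
    have h2 : Ge P (P.ord h) h := Or.inr le_rfl
    refine (h2.mul hb1).mono ?_
    omega
  have h2 : ∀ w ∈ Z, w ≠ P → Ge w (M + 1) (h * b) := by
    intro w hw hwP
    have h3 : Ge w (w.ord h) h := Or.inr le_rfl
    refine (h3.mul (hb2 w (Finset.mem_erase.2 ⟨hwP, hw⟩))).mono ?_
    have := le_sum_natAbs Z h hw
    omega
  have h3 : Ge P 0 (h * b) := by
    have h4 := (h1.mono (by omega : (0 : ℤ) ≤ M + 1)).add (Ge.one (P := P))
    simpa using h4
  refine ⟨b, ?_, ?_⟩
  · intro w hw
    by_cases hwP : w = P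
    · rw [hwP]
      have h4 : Ge P 0 h⁻¹ := Or.inr (by rw [P.ord_inv]; omega)
      have h5 := (hb1.mono (by omega : (0 : ℤ) ≤ M + M' + 1)).add h4
      simpa using h5
    · exact (hb2 w (Finset.mem_erase.2 ⟨hwP, hw⟩)).mono (by omega)
  · have hle : ∀ (w : Place k F) (e : ℕ), Over w q e → (e : ℤ) ≤ M := by
      intro w e hw
      have h4 := le_sum_natAbs Z (algebraMap K F t) (hZ w e hw)
      have h5 := hw.2 t
      rw [ht] at h5
      omega
    refine trace_unit q (h * b) ?_ ?_ P e0 hP (h1.mono (by omega))
    · intro w e hw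
      have h4 := hle w e hw
      have e1 : (h * b) ^ 2 - h * b = (h * b) * (h * b - 1) := by ring
      rw [e1]
      by_cases hwP : w = P
      · subst hwP
        refine (h3.mul h1).mono (by omega)
      · have h5 := h2 w (hZ w e hw) hwP
        have h6 : Ge w 0 (h * b - 1) := (h5.mono (by omega)).sub Ge.one
        refine (h5.mul h6).mono (by omega)
    · intro w e hw
      by_cases hwP : w = P
      · rw [hwP]; exact h3
      · exact (h2 w (hZ w e hw) hwP).mono (by omega)

end

section

variable {k F : Type*} [Field k] [Field F] [Algebra k F] [CharZero k] [IsFF k F] [IsAlgClosed k]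

theorem ord_aeval_of_neg {x : F} (P : Place k F) (hP : P.ord x < 0) {p : k[X]} (hp : p ≠ 0) :
    aeval x p ≠ 0 ∧ P.ord (aeval x p) = p.natDegree * P.ord x := by
  have hx0 : x ≠ 0 := by
    rintro rfl
    rw [P.ord_zero] at hP; omega
  have hx : Transcendental k x := P.transcendental_of_ord_ne (by omega)
  have hne : aeval x p ≠ 0 := fun h => hp ((transcendental_iff_injective.1 hx) (by rw [h, map_zero]))
  refine ⟨hne, ?_⟩
  -- divide by the leading monomial
  have h1 : Ge P ((p.natDegree : ℤ) * P.ord x + 1) (aeval x p - algebraMap k F p.leadingCoeff * x ^ p.natDegree) := by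
    have e : aeval x p - algebraMap k F p.leadingCoeff * x ^ p.natDegree =
        ∑ i ∈ Finset.range p.natDegree, algebraMap k F (p.coeff i) * x ^ i := by
      rw [aeval_eq_sum_range, Finset.sum_range_succ]
      simp only [Algebra.smul_def]
      rw [coeff_natDegree]; ring
    rw [e]
    apply Ge.sum
    intro i hi
    rw [Finset.mem_range] at hi
    have h2 : Ge P ((i : ℤ) * P.ord x) (x ^ i) := Or.inr (by rw [P.ord_pow])
    refine ((Ge.const (P := P) (p.coeff i)).mul h2).mono ?_
    have h3 : ((p.natDegree : ℤ) - i) * P.ord x ≤ ((p.natDegree : ℤ) - i) * (-1) := by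
      apply mul_le_mul_of_nonneg_left <;> omega
    have h4 : (1 : ℤ) ≤ (p.natDegree : ℤ) - i := by omega
    nlinarith
  have hlc : algebraMap k F p.leadingCoeff ≠ 0 := by simpa using hp
  have h2 : P.ord (algebraMap k F p.leadingCoeff * x ^ p.natDegree) = p.natDegree * P.ord x := by
    rw [P.ord_mul hlc (pow_ne_zero _ hx0), P.ord_const (by simpa using hp), P.ord_pow, zero_add]
  by_cases h3 : aeval x p - algebraMap k F p.leadingCoeff * x ^ p.natDegree = 0
  · rw [sub_eq_zero] at h3
    rw [h3, h2]
  · have h4 := h1.resolve_left h3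
    have h5 := P.ord_add_eq (f := algebraMap k F p.leadingCoeff * x ^ p.natDegree)
      (g := aeval x p - algebraMap k F p.leadingCoeff * x ^ p.natDegree)
      (mul_ne_zero hlc (pow_ne_zero _ hx0)) h3 (by omega)
    rw [add_sub_cancel, h2] at h5
    exact h5.2

theorem trace_mul_left {x : F} (r : k⟮x⟯) (z : F) :
    Algebra.trace k⟮x⟯ F ((r : F) * z) = r * Algebra.trace k⟮x⟯ F z := by
  have h := (Algebra.trace k⟮x⟯ F).map_smul r z
  rw [Algebra.smul_def, smul_eq_mul] at h
  exact h

theorem mult_regular {x : F} (hx : Transcendental k x) (D : Derivation k F F) (hD : D x = 1)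
    (lam : F →ₗ[k] k) (hI : ∀ y ∈ BI (k := k) x, lam y = 0) (hB : ∀ y ∈ BB (k := k) x, lam y = 0)
    {f : F} (hf0 : f ≠ 0)
    (hf : ∀ y, iota hx (Algebra.trace k⟮x⟯ F (f * y)) = SS lam hI y) (P : Place k F) :
    vo P D ≤ P.ord f := by
  classical
  have hD0 : D ≠ 0 := by
    rintro rfl
    simp at hD
  have hfin := IsFF.finite hx
  have hx0 : x ≠ 0 := by
    rintro rfl
    exact hx isAlgebraic_zero
  by_contra hcon
  push Not at hcon
  have hsF : IsScalarTower k k⟮x⟯ F := inferInstance
  let xx : k⟮x⟯ := ⟨x, mem_adjoin_simple_self k x⟩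
  rcases lt_or_ge (P.ord x) 0 with hPx | hPx
  · -- a pole of x
    obtain ⟨e0, q, hq⟩ := exists_over (K := k⟮x⟯) P ⟨xx, by
      change P.ord x ≠ 0; omega⟩
    have hvo := (ord_der P hD0 (f := x) (by omega)).2
    rw [hD, P.ord_one] at hvo
    have hh0 : x * f ≠ 0 := mul_ne_zero hx0 hf0
    have hfs := finite_support (k := k) x
    have hqx : q.ord xx < 0 := by
      have h1 := hq.2 xx
      have h2 : P.ord (algebraMap k⟮x⟯ F xx) = P.ord x := rfl
      have h3 := hq.1
      by_contra hcon
      push Not at hcon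
      have : (0 : ℤ) ≤ e0 * q.ord xx := by positivity
      omega
    obtain ⟨b, hb1, hb2⟩ := exists_contra q P e0 hq (hfs.toFinset.filter fun w => w.ord x < 0)
      (by
        intro w e hw
        have h1 := hw.2 xx
        have h2 : w.ord (algebraMap k⟮x⟯ F xx) = w.ord x := rfl
        have h3 := hw.1
        have h4 : (e : ℤ) * q.ord xx < 0 := mul_neg_of_pos_of_neg (by exact_mod_cast h3) hqx
        rw [Finset.mem_filter, hfs.mem_toFinset]
        refine ⟨?_, by omega⟩
        show w.ord x ≠ 0
        omega)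
      (x * f) hh0 (by rw [P.ord_mul hx0 hf0]; omega)
    apply hb2
    have hbI : b ∈ BI (k := k) x := by
      intro w hw
      apply hb1
      rw [Finset.mem_filter, hfs.mem_toFinset]
      refine ⟨?_, hw⟩
      show w.ord x ≠ 0
      omega
    -- the trace
    set r := Algebra.trace k⟮x⟯ F (f * b) with hr
    have h5 : Algebra.trace k⟮x⟯ F (x * f * b) = xx * r := by
      rw [hr, mul_assoc]
      exact trace_mul_left xx (f * b)
    rw [h5]
    have h6 : ∀ j : ℤ, j < 2 → (iota hx r).coeff j = 0 := by
      intro j hj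
      rw [hf b, SS_coeff]
      apply hI
      intro w hw
      obtain ⟨n, hn⟩ := Int.eq_ofNat_of_zero_le (show 0 ≤ -(j - 1) by omega)
      have h7 : j - 1 = -(n : ℤ) := by omega
      rw [h7]
      have h8 : Ge w 0 (x ^ (-(n : ℤ))) := by
        right
        rw [w.ord_zpow]
        exact mul_nonneg_of_nonpos_of_nonpos (by omega) (by omega)
      simpa using h8.mul (hbI w hw)
    by_cases hr0 : r = 0
    · left; rw [hr0, mul_zero]
    obtain ⟨p, g, hg, hpg⟩ := exists_px_div r
    have hp : p ≠ 0 := by
      rintro rfl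
      rw [map_zero, mul_eq_zero] at hpg
      rcases hpg with h | h
      · exact hr0 h
      · exact hg (px_injective hx (by rw [h, map_zero]))
    have h7 := congrArg (iota hx) hpg
    rw [map_mul, iota_px, iota_px] at h7
    have h8 : 2 ≤ (iota hx r).order := by
      by_contra hlt
      push Not at hlt
      have h9 := h6 _ hlt
      rw [HahnSeries.coeff_order_eq_zero, map_eq_zero] at h9
      exact hr0 h9
    have h9 := congrArg HahnSeries.order h7
    rw [HahnSeries.order_mul (by rwa [Ne, map_eq_zero]) (eU_ne hg), order_eU hg, order_eU hp] at h9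
    -- orders at P
    have h10 := congrArg (fun z : k⟮x⟯ => P.ord (algebraMap k⟮x⟯ F z)) hpg
    simp only [map_mul] at h10
    have h11 : ∀ s : k[X], algebraMap k⟮x⟯ F (px x s) = aeval x s := coe_px
    rw [h11, h11, P.ord_mul (by simpa using hr0) (ord_aeval_of_neg P hPx hg).1,
      (ord_aeval_of_neg P hPx hg).2, (ord_aeval_of_neg P hPx hp).2] at h10
    right
    have h12 : P.ord (algebraMap k⟮x⟯ F (xx * r)) = P.ord x + P.ord (algebraMap k⟮x⟯ F r) := by
      rw [map_mul, P.ord_mul _ (by simpa using hr0)]
      · rfl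
      · change x ≠ 0; exact hx0
    rw [hq.2] at h12
    have h13 : (2 : ℤ) ≤ (g.natDegree : ℤ) - p.natDegree := by omega
    have h14 : P.ord (algebraMap k⟮x⟯ F r) = -(((g.natDegree : ℤ) - p.natDegree) * P.ord x) := by
      linarith
    have h15 : ((g.natDegree : ℤ) - p.natDegree) * P.ord x ≤ 2 * P.ord x := by
      apply mul_le_mul_of_nonpos_right h13 hPx.le
    have h16 : (0 : ℤ) < e0 * q.ord (xx * r) := by omega
    have h17 := (pos_iff_pos_of_mul_pos h16).1 (by exact_mod_cast hq.1)
    omega
  · -- x is regular at P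
    obtain ⟨c, hc⟩ := exists_const P (f := x) (Or.inr hPx)
    have hs0 := sub_const_ne (k := k) hx c
    have hc' := hc.resolve_left hs0
    set s : F := x - algebraMap k F c with hs
    let ss : k⟮x⟯ := xx - algebraMap k k⟮x⟯ c
    have hss : algebraMap k⟮x⟯ F ss = s := rfl
    obtain ⟨e0, q, hq⟩ := exists_over (K := k⟮x⟯) P ⟨ss, by
      rw [hss]; omega⟩
    have hDs : D s = 1 := by
      rw [hs, map_sub, hD, Derivation.map_algebraMap, sub_zero]
    have hvo := (ord_der P hD0 (f := s) (by omega)).2
    rw [hDs, P.ord_one] at hvo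
    have hfs := finite_support (k := k) s
    have hqs : 0 < q.ord ss := by
      have h1 := hq.2 ss
      rw [hss] at h1
      have h16 : (0 : ℤ) < e0 * q.ord ss := by omega
      exact (pos_iff_pos_of_mul_pos h16).1 (by exact_mod_cast hq.1)
    obtain ⟨b, hb1, hb2⟩ := exists_contra q P e0 hq (hfs.toFinset.filter fun w => 0 < w.ord s)
      (by
        intro w e hw
        have h1 := hw.2 ss
        rw [hss] at h1
        have h3 := hw.1
        have h4 : 0 < (e : ℤ) * q.ord ss := mul_pos (by exact_mod_cast h3) hqs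
        rw [Finset.mem_filter, hfs.mem_toFinset]
        refine ⟨?_, by omega⟩
        show w.ord s ≠ 0
        omega)
      (s * f) (mul_ne_zero hs0 hf0) (by rw [P.ord_mul hs0 hf0]; omega)
    apply hb2
    set r := Algebra.trace k⟮x⟯ F (f * b) with hr
    have h5 : Algebra.trace k⟮x⟯ F (s * f * b) = ss * r := by
      rw [hr, mul_assoc]
      exact trace_mul_left ss (f * b)
    rw [h5]
    -- clear denominators
    obtain ⟨g, hg0, hgB, hgc⟩ := clear hx b
    have hgc' : g.eval c ≠ 0 := by
      apply hgc
      intro w hw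
      change 0 < w.ord s at hw
      apply hb1
      rw [Finset.mem_filter, hfs.mem_toFinset]
      refine ⟨?_, hw⟩
      show w.ord s ≠ 0
      omega
    obtain ⟨p, hp⟩ := SS_of_BB lam hI hB hgB
    have h6 : px x g * r = px x p := by
      apply iota_injective hx
      rw [map_mul, iota_px, iota_px, hp, SS_poly lam hI hx0, ← hf b]
    -- regularity at q
    have hqx : Ge q 0 xx := by
      have h7 : Ge q 1 ss := Or.inr (by omega)
      have h8 := (h7.mono (by omega : (0 : ℤ) ≤ 1)).add (Ge.const (P := q) c)
      have e : ss + algebraMap k k⟮x⟯ c = xx := sub_add_cancel _ _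
      rwa [e] at h8
    have hpr : Ge q 0 (px x p) := ge_aeval q hqx p
    have hgr : q.ord (px x g) = 0 := by
      have h7 : Ge q 0 (px x g) := ge_aeval q hqx g
      have h8 : Ge q 1 (px x g - algebraMap k k⟮x⟯ (g.eval c)) := by
        have h9 : X - C c ∣ g - C (g.eval c) := by
          rw [dvd_iff_isRoot]; simp
        obtain ⟨g', hg'⟩ := h9
        have h10 : px x g - algebraMap k k⟮x⟯ (g.eval c) = ss * px x g' := by
          have := congrArg (px x) hg'
          rw [map_sub, map_mul, map_sub] at this
          have e1 : px x (C (g.eval c)) = algebraMap k k⟮x⟯ (g.eval c) := by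
            unfold px; rw [aeval_C]
          have e2 : px x (X : k[X]) - px x (C c) = ss := by
            unfold px; rw [aeval_X, aeval_C]
          rw [e1, e2] at this
          exact this
        rw [h10]
        have h11 : Ge q 1 ss := Or.inr (by omega)
        have h12 : Ge q 0 (px x g') := ge_aeval q hqx g'
        have h13 := h11.mul h12
        rwa [add_zero] at h13
      have h12 : q.ord (algebraMap k k⟮x⟯ (g.eval c)) = 0 := q.ord_const hgc'
      have hne : algebraMap k k⟮x⟯ (g.eval c) ≠ 0 := by simpa using hgc'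
      by_cases h13 : px x g - algebraMap k k⟮x⟯ (g.eval c) = 0
      · rw [sub_eq_zero.1 h13, h12]
      · have h14 := h8.resolve_left h13
        have h15 := q.ord_add_eq hne h13 (by omega)
        rw [add_sub_cancel, h12] at h15
        exact h15.2
    have hr1 : Ge q 0 r := by
      have h7 := Ge.of_mul' (P := q) (N := 0) (m := 0) (h := px x g) (f := r)
        (fun h => hg0 (px_injective hx (by rw [h, map_zero]))) hgr (by rw [h6]; simpa using hpr)
      simpa using h7
    have h11 : Ge q 1 ss := Or.inr (by omega)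
    simpa using h11.mul hr1

end

end Pool.Agent.W619.PQ
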